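import Pool.Agent.H978R3.SL.Stmts

set_option autoImplicit false

open Set Filter Topology Metric Bornology

namespace Pool.Agent.H978R3.SL

theorem pl3 (h1 : TaskPL1) (h2 : TaskPL2) (D : Set ℂ) (φ : ℂ → ℂ) (M ε R0 : ℝ) (c : ℕ → ℂ)
    (hD : IsOpen D) (hε : 0 < ε)
    (hφ : ∀ z ∈ closure D, R0 ≤ ‖z‖ → DifferentiableAt ℂ φ z ∧ ‖φ z‖ ≤ M)
    (hb : ∀ z ∈ frontier D, R0 ≤ ‖z‖ → ‖φ z‖ ≤ ε)
    (hc : ∀ j, ‖c (j + 1) - c j - 2 * (Real.pi : ℂ) * Complex.I‖ ≤ 0.03)
    (hs : ∀ j, ∀ z ∈ D, |z.im - (c j).im| < 4 → 1 ≤ |z.re - (c j).re|) :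
    ∀ θ : ℝ, ε < θ → ∃ R : ℝ, ∀ z ∈ D, R ≤ ‖z‖ → ‖φ z‖ ≤ θ := by
  set P : ℝ → Prop := fun θ => ∃ R : ℝ, ∀ z ∈ D, R ≤ ‖z‖ → ‖φ z‖ ≤ θ with hP
  have hmono : ∀ θ θ' : ℝ, θ ≤ θ' → P θ → P θ' := by
    rintro θ θ' h ⟨R, hR⟩
    exact ⟨R, fun z hz hz2 => (hR z hz hz2).trans h⟩
  have hstep : ∀ x : ℝ, 0 < x → P (ε * Real.exp x) → P (ε * Real.exp (0.6 * x)) := by
    rintro x hx ⟨R, hR⟩
    set θ := ε * Real.exp x with hθ
    have hεθ : ε ≤ θ := by
      rw [hθ]
      have := Real.one_le_exp hx.le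
      nlinarith
    have hlog : Real.log (θ / ε) = x := by
      rw [hθ, mul_div_cancel_left₀ _ hε.ne', Real.log_exp]
    set R' : ℝ := max R0 (R + 1) with hR'
    have hcl : ∀ z ∈ closure D, R' ≤ ‖z‖ → DifferentiableAt ℂ φ z ∧ ‖φ z‖ ≤ θ := by
      intro z hz hzR
      have hd := (hφ z hz ((le_max_left _ _).trans hzR)).1
      refine ⟨hd, ?_⟩
      by_contra hcon
      push Not at hcon
      have e1 : ∀ᶠ w in 𝓝 z, θ < ‖φ w‖ := hd.continuousAt.norm.eventually_const_lt hcon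
      have e2 : ∀ᶠ w in 𝓝 z, R < ‖w‖ := by
        apply continuous_norm.continuousAt.eventually_const_lt
        have := (le_max_right R0 (R + 1)).trans hzR
        linarith
      obtain ⟨w, hw1, hw2⟩ := mem_closure_iff_nhds.1 hz _ (e1.and e2)
      have := hR w hw2 hw1.2.le
      linarith [hw1.1]
    obtain ⟨R2, hR2⟩ := h1 D φ θ ε R' c hD hε hεθ hcl
      (fun z hz hzR => hb z hz ((le_max_left _ _).trans hzR)) hc hs
    rw [hlog] at hR2
    have hl1 : ε ≤ ε * Real.exp (0.54 * x) := by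
      have := Real.one_le_exp (x := 0.54 * x) (by positivity)
      nlinarith
    have hl2 : ε * Real.exp (0.54 * x) ≤ θ := by
      rw [hθ]
      apply mul_le_mul_of_nonneg_left _ hε.le
      apply Real.exp_le_exp.2
      linarith
    have hl3 : ε * Real.exp (0.54 * x) < ε * Real.exp (0.6 * x) := by
      apply mul_lt_mul_of_pos_left _ hε
      apply Real.exp_lt_exp.2
      linarith
    exact h2 D φ θ (ε * Real.exp (0.54 * x)) (max (max R' R2) 1) hD (by positivity) hl2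
      (by positivity)
      (fun z hz hzR => hcl z hz (((le_max_left _ _).trans (le_max_left _ _)).trans hzR))
      (fun z hz hzR => (hb z hz (((le_max_left _ _).trans ((le_max_left _ _).trans
        (le_max_left _ _))).trans hzR)).trans hl1)
      (fun z hz hzR => hR2 z hz (((le_max_right _ _).trans (le_max_left _ _)).trans hzR)) _ hl3
  set M' : ℝ := max M (2 * ε) with hM'
  set x0 : ℝ := Real.log (M' / ε) with hx0
  have hM'2 : 2 * ε ≤ M' := le_max_right _ _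
  have hM'p : 0 < M' := by linarith
  have hx0p : 0 < x0 := by
    apply Real.log_pos
    rw [lt_div_iff₀ hε]; linarith
  have hPM : P (ε * Real.exp x0) := by
    rw [hx0, Real.exp_log (by positivity), mul_div_cancel₀ _ hε.ne']
    exact ⟨R0, fun z hz hz2 => ((hφ z (subset_closure hz) hz2).2).trans (le_max_left _ _)⟩
  have hall : ∀ n : ℕ, P (ε * Real.exp (0.6 ^ n * x0)) := by
    intro n
    induction n with
    | zero => simpa using hPM
    | succ n ih =>
      have := hstep (0.6 ^ n * x0) (by positivity) ih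
      rw [← mul_assoc, ← pow_succ'] at this
      exact this
  intro θ hθ
  have hlogp : 0 < Real.log (θ / ε) := by
    apply Real.log_pos
    rw [lt_div_iff₀ hε]; linarith
  obtain ⟨n, hn⟩ := exists_pow_lt_of_lt_one (div_pos hlogp hx0p) (show (0.6:ℝ) < 1 by norm_num)
  rw [lt_div_iff₀ hx0p] at hn
  apply hmono _ _ _ (hall n)
  have hθp : 0 < θ := hε.trans hθ
  calc ε * Real.exp (0.6 ^ n * x0) ≤ ε * Real.exp (Real.log (θ / ε)) := by
        apply mul_le_mul_of_nonneg_left _ hε.le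
        exact Real.exp_le_exp.2 hn.le
    _ = θ := by rw [Real.exp_log (by positivity)]; field_simp

theorem pl4 (h1 : TaskPL1) (h2 : TaskPL2) (D : Set ℂ) (φ : ℂ → ℂ) (M ε R0 : ℝ) (c : ℕ → ℂ)
    (hD : IsOpen D) (hε : 0 < ε)
    (hφ : ∀ z ∈ closure D, R0 ≤ ‖z‖ → DifferentiableAt ℂ φ z ∧ ‖φ z‖ ≤ M)
    (hb : ∀ z ∈ frontier D, R0 ≤ ‖z‖ → ‖φ z‖ ≤ ε)
    (hc : (∀ j, ‖c (j + 1) - c j - 2 * (Real.pi : ℂ) * Complex.I‖ ≤ 0.03) ∨
      (∀ j, ‖c (j + 1) - c j + 2 * (Real.pi : ℂ) * Complex.I‖ ≤ 0.03))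
    (hs : ∀ j, ∀ z ∈ D, |z.im - (c j).im| < 4 → 1 ≤ |z.re - (c j).re|) :
    ∀ θ : ℝ, ε < θ → ∃ R : ℝ, ∀ z ∈ D, R ≤ ‖z‖ → ‖φ z‖ ≤ θ := by
  rcases hc with hc | hc
  · exact pl3 h1 h2 D φ M ε R0 c hD hε hφ hb hc hs
  · intro θ hθ
    have hpc : closure ((Homeomorph.neg ℂ) ⁻¹' D) = (Homeomorph.neg ℂ) ⁻¹' closure D :=
      ((Homeomorph.neg ℂ).preimage_closure D).symm
    have hpf : frontier ((Homeomorph.neg ℂ) ⁻¹' D) = (Homeomorph.neg ℂ) ⁻¹' frontier D :=
      ((Homeomorph.neg ℂ).preimage_frontier D).symm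
    obtain ⟨R, hR⟩ := pl3 h1 h2 ((Homeomorph.neg ℂ) ⁻¹' D) (fun z => φ (-z)) M ε R0
      (fun j => - c j) (hD.preimage (Homeomorph.neg ℂ).continuous) hε (by
        intro z hz hzR
        rw [hpc] at hz
        have h3 := hφ (-z) hz (by rwa [norm_neg])
        exact ⟨h3.1.comp z differentiable_neg.differentiableAt, h3.2⟩) (by
        intro z hz hzR
        rw [hpf] at hz
        exact hb (-z) hz (by rwa [norm_neg])) (by
        intro j
        have e : - c (j + 1) - - c j - 2 * (Real.pi : ℂ) * Complex.I =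
          -(c (j + 1) - c j + 2 * (Real.pi : ℂ) * Complex.I) := by ring
        show ‖- c (j + 1) - - c j - 2 * (Real.pi : ℂ) * Complex.I‖ ≤ 0.03
        rw [e, norm_neg]
        exact hc j) (by
        intro j z hz h3
        have h4 := hs j (-z) hz (by
          rw [← abs_neg]
          convert h3 using 2
          simp [Complex.neg_im]; ring)
        rw [← abs_neg] at h4
        convert h4 using 2
        simp [Complex.neg_re]; ring) θ hθ
    refine ⟨R, fun z hz hzR => ?_⟩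
    have := hR (-z) (by simpa using hz) (by rwa [norm_neg])
    simpa using this

end Pool.Agent.H978R3.SL
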