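import Pool.Agent.H978R3.SL.Chain
import Pool.Agent.H978R3.SL.PL3

set_option autoImplicit false

open Set Filter Topology Metric Bornology

namespace Pool.Agent.H978R3.SL

/-- the derivative tends to infinity at a pole -/
theorem Pole.deriv {f : ℂ → ℂ} {z : ℂ} (h : Pole f z) :
    Tendsto (deriv f) (𝓝[≠] z) (cobounded ℂ) := by
  have h1 : meromorphicOrderAt f z < 0 :=
    (tendsto_cobounded_iff_meromorphicOrderAt_neg h.1).1 h.2
  have hne : meromorphicOrderAt f z ≠ ⊤ := ne_top_of_lt h1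
  obtain ⟨n, hn⟩ := WithTop.ne_top_iff_exists.1 hne
  have hn0 : n < 0 := by
    rw [← hn] at h1
    exact_mod_cast h1
  have h2 := meromorphicOrderAt_deriv_eq_sub_one (𝕜 := ℂ) (f := f) (x := z) (n := n)
    (by exact_mod_cast hn0.ne) hn.symm
  rw [tendsto_cobounded_iff_meromorphicOrderAt_neg h.1.deriv, h2]
  exact_mod_cast (by linarith : n - 1 < 0)

theorem closure_analytic {f F : ℂ → ℂ} (hf : MF f)
    (hF : ∀ z, Pole f z → Tendsto F (𝓝[≠] z) (cobounded ℂ)) {D : Set ℂ} {B : ℝ}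
    (hD : ∀ w ∈ D, AnalyticAt ℂ f w ∧ ‖F w‖ ≤ B) {z : ℂ} (hz : z ∈ closure D) :
    AnalyticAt ℂ f z := by
  rcases hf z with hA | hP
  · exact hA
  · exfalso
    have h1 := (tendsto_norm_cobounded_atTop.comp (hF z hP)).eventually_gt_atTop B
    rw [eventually_nhdsWithin_iff] at h1
    obtain ⟨w, hw1, hw2⟩ := mem_closure_iff_nhds.1 hz _ h1
    have h3 := hD w hw2
    have hne : w ≠ z := by
      rintro rfl
      exact hP.not_analyticAt h3.1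
    have := hw1 hne
    simp only [Function.comp] at this
    linarith [h3.2]

/-- first application: nonzero finite values are not almost omitted by the derivative -/
theorem app1 (t1 : TaskPL1) (t2 : TaskPL2) {f : ℂ → ℂ} (hf : MF f) {α β : ℂ} (hα0 : α ≠ 0)
    (hβ0 : β ≠ 0) (hα : HF f α) (hβ : HF f β) (hCon : Con α β)
    (hE : ∀ δ > 0, ∀ R : ℝ, ∃ z, R ≤ ‖z‖ ∧ AnalyticAt ℂ f z ∧ ‖f z - β‖ ≤ δ) (C : ℝ) {ε : ℝ}
    (hε : 0 < ε) : ∃ R : ℝ, ∀ z, R ≤ ‖z‖ → AnalyticAt ℂ f z → ‖f z‖ ≤ C →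
      ‖deriv f z - f z‖ < ε := by
  by_contra hcon
  push Not at hcon
  have hC0 : 0 ≤ C := by
    obtain ⟨z, -, -, h, -⟩ := hcon 0
    exact (norm_nonneg _).trans h
  have hαp : 0 < ‖α‖ := norm_pos_iff.2 hα0
  have hβp : 0 < ‖β‖ := norm_pos_iff.2 hβ0
  set κ0 : ℝ := (ε / 2) / ((C + ‖α‖) * (C + ‖β‖)) with hκ0
  have hκ0p : 0 < κ0 := by positivity
  -- the small parameter
  obtain ⟨δ, hδ, m1, m2, m3, m4, m5, m6, m7⟩ : ∃ δ > 0, δ ≤ ε / 2 ∧ δ < ‖α‖ / 2 ∧ δ < ‖β‖ / 2 ∧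
      2 * ‖α‖ * δ ≤ 1 ∧ 2 * ‖β‖ * δ ≤ 1 ∧ (C + 1) * δ ≤ 1 ∧
      4 * δ * (1 + 1 / (‖α‖ * ‖β‖)) < κ0 := by
    have hlim : ∀ a b : ℝ, 0 < b → ∀ᶠ δ in 𝓝[>] (0:ℝ), a * δ < b := by
      intro a b hb
      have : Tendsto (fun δ : ℝ => a * δ) (𝓝[>] 0) (𝓝 (a * 0)) :=
        (Continuous.tendsto (by fun_prop) 0).mono_left nhdsWithin_le_nhds
      rw [mul_zero] at this
      exact this.eventually_lt_const hb
    have hall := ((((((hlim 1 (ε / 2) (by positivity)).and (hlim 1 (‖α‖ / 2) (by positivity))).and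
      (hlim 1 (‖β‖ / 2) (by positivity))).and (hlim (2 * ‖α‖) 1 one_pos)).and
      (hlim (2 * ‖β‖) 1 one_pos)).and (hlim (C + 1) 1 one_pos)).and
      ((hlim (4 * (1 + 1 / (‖α‖ * ‖β‖))) κ0 hκ0p).and self_mem_nhdsWithin)
    obtain ⟨δ, ⟨⟨⟨⟨⟨⟨a1, a2⟩, a3⟩, a4⟩, a5⟩, a6⟩, a7, a8⟩⟩ := hall.exists
    exact ⟨δ, a8, by linarith, by linarith, by linarith, a4.le, a5.le, a6.le, by
      calc _ = 4 * (1 + 1 / (‖α‖ * ‖β‖)) * δ := by ring
        _ < κ0 := a7⟩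
  set εP : ℝ := 4 * δ * (1 + 1 / (‖α‖ * ‖β‖)) with hεP
  have hεPp : 0 < εP := by positivity
  obtain ⟨dα, hdα, Rα, hmα⟩ := hα (‖α‖ / 2) (by positivity)
  obtain ⟨dβ, hdβ, Rβ, hmβ⟩ := hβ (‖β‖ / 2) (by positivity)
  obtain ⟨R1, hR1⟩ := F1 hf hα hβ hCon (1 / δ) (ε := δ / 8) (by positivity)
  set R2 : ℝ := max (max Rα Rβ) R1 with hR2
  have hR2α : Rα ≤ R2 := (le_max_left _ _).trans (le_max_left _ _)
  have hR2β : Rβ ≤ R2 := (le_max_right _ _).trans (le_max_left _ _)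
  have hR21 : R1 ≤ R2 := le_max_right _ _
  have hfar : ∀ c : ℂ, ∀ d > 0, (∀ z, R2 ≤ ‖z‖ → AnalyticAt ℂ f z → ‖f z - c‖ < d →
      ‖deriv f z - c‖ ≤ ‖c‖ / 2) → δ < ‖c‖ / 2 → ∀ z, R2 ≤ ‖z‖ → AnalyticAt ℂ f z →
      ‖deriv f z‖ ≤ δ / 4 → d ≤ ‖f z - c‖ := by
    intro c d hd h1 h2 z hz hA h3
    by_contra h4
    push Not at h4
    have h5 := h1 z hz hA h4
    have : ‖c‖ ≤ ‖deriv f z‖ + ‖deriv f z - c‖ := by
      calc ‖c‖ = ‖deriv f z - (deriv f z - c)‖ := by congr 1; ring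
        _ ≤ _ := norm_sub_le _ _
    linarith
  have hfα := hfar α dα hdα (fun z hz hA h => (hmα z (hR2α.trans hz) hA).1 h) m2
  have hfβ := hfar β dβ hdβ (fun z hz hA h => (hmβ z (hR2β.trans hz) hA).1 h) m3
  set D : Set ℂ := {z | R2 < ‖z‖ ∧ AnalyticAt ℂ f z ∧ δ < ‖f z‖ ∧ ‖f z‖ < 1 / δ ∧
    ‖deriv f z‖ < δ / 4} with hD
  have hDo : IsOpen D := by
    rw [isOpen_iff_mem_nhds]
    rintro z ⟨a1, a2, a3, a4, a5⟩
    filter_upwards [continuous_norm.continuousAt.eventually_const_lt a1, a2.eventually_analyticAt,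
      a2.continuousAt.norm.eventually_const_lt a3, a2.continuousAt.norm.eventually_lt_const a4,
      a2.deriv.continuousAt.norm.eventually_lt_const a5] with w b1 b2 b3 b4 b5
    exact ⟨b1, b2, b3, b4, b5⟩
  have hcl : ∀ z ∈ closure D, AnalyticAt ℂ f z ∧ R2 ≤ ‖z‖ ∧ δ ≤ ‖f z‖ ∧ ‖f z‖ ≤ 1 / δ ∧
      ‖deriv f z‖ < δ / 4 := by
    intro z hz
    have hA : AnalyticAt ℂ f z := closure_analytic hf (F := f) (fun z h => h.2) (D := D)
      (B := 1 / δ) (fun w hw => ⟨hw.2.1, hw.2.2.2.1.le⟩) hz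
    have b1 : R2 ≤ ‖z‖ := by
      by_contra h
      push Not at h
      obtain ⟨w, hw1, hw2⟩ := mem_closure_iff_nhds.1 hz _
        (continuous_norm.continuousAt.eventually_lt_const h)
      exact absurd hw2.1 (not_lt.2 (le_of_lt hw1))
    have b3 : δ ≤ ‖f z‖ := by
      by_contra h
      push Not at h
      obtain ⟨w, hw1, hw2⟩ := mem_closure_iff_nhds.1 hz _
        (hA.continuousAt.norm.eventually_lt_const h)
      exact absurd hw2.2.2.1 (not_lt.2 (le_of_lt hw1))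
    have b4 : ‖f z‖ ≤ 1 / δ := by
      by_contra h
      push Not at h
      obtain ⟨w, hw1, hw2⟩ := mem_closure_iff_nhds.1 hz _
        (hA.continuousAt.norm.eventually_const_lt h)
      exact absurd hw2.2.2.2.1 (not_lt.2 (le_of_lt hw1))
    have b5 : ‖deriv f z‖ ≤ δ / 4 := by
      by_contra h
      push Not at h
      obtain ⟨w, hw1, hw2⟩ := mem_closure_iff_nhds.1 hz _
        (hA.deriv.continuousAt.norm.eventually_const_lt h)
      exact absurd hw2.2.2.2.2 (not_lt.2 (le_of_lt hw1))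
    refine ⟨hA, b1, b3, b4, ?_⟩
    rcases hR1 z (hR21.trans b1) hA b4 with h | h
    · have : ‖f z‖ ≤ ‖deriv f z‖ + ‖deriv f z - f z‖ := by
        calc ‖f z‖ = ‖deriv f z - (deriv f z - f z)‖ := by congr 1; ring
          _ ≤ _ := norm_sub_le _ _
      linarith
    · linarith
  set φ : ℂ → ℂ := fun z => f z / ((f z - α) * (f z - β)) with hφ
  have hne : ∀ z ∈ closure D, dα ≤ ‖f z - α‖ ∧ dβ ≤ ‖f z - β‖ := by
    intro z hz
    obtain ⟨b0, b1, b2, b3, b4⟩ := hcl z hz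
    exact ⟨hfα z b1 b0 b4.le, hfβ z b1 b0 b4.le⟩
  have hφc : ∀ z ∈ closure D, R2 + 1 ≤ ‖z‖ → DifferentiableAt ℂ φ z ∧
      ‖φ z‖ ≤ (1 / δ) / (dα * dβ) := by
    intro z hz _
    obtain ⟨b0, b1, b2, b3, b4⟩ := hcl z hz
    obtain ⟨n1, n2⟩ := hne z hz
    have n3 : f z - α ≠ 0 := norm_pos_iff.1 (lt_of_lt_of_le hdα n1)
    have n4 : f z - β ≠ 0 := norm_pos_iff.1 (lt_of_lt_of_le hdβ n2)
    constructor
    · have := b0.differentiableAt
      exact this.div ((this.sub_const α).mul (this.sub_const β)) (mul_ne_zero n3 n4)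
    · simp only [hφ, norm_div, norm_mul]
      gcongr
  have hφf : ∀ z ∈ frontier D, R2 + 1 ≤ ‖z‖ → ‖φ z‖ ≤ εP := by
    intro z hz hzR
    rw [hDo.frontier_eq] at hz
    obtain ⟨b0, b1, b2, b3, b4⟩ := hcl z hz.1
    have hor : ‖f z‖ = δ ∨ ‖f z‖ = 1 / δ := by
      by_contra h
      push Not at h
      apply hz.2
      exact ⟨by linarith, b0, lt_of_le_of_ne b2 (Ne.symm h.1), lt_of_le_of_ne b3 h.2, b4⟩
    have hexp : εP = 4 * δ + 4 * δ / (‖α‖ * ‖β‖) := by rw [hεP]; field_simp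
    simp only [hφ, norm_div, norm_mul]
    rcases hor with h | h
    · have q1 : ‖α‖ / 2 ≤ ‖f z - α‖ := by
        have : ‖α‖ ≤ ‖f z‖ + ‖f z - α‖ := by
          calc ‖α‖ = ‖f z - (f z - α)‖ := by congr 1; ring
            _ ≤ _ := norm_sub_le _ _
        linarith
      have q2 : ‖β‖ / 2 ≤ ‖f z - β‖ := by
        have : ‖β‖ ≤ ‖f z‖ + ‖f z - β‖ := by
          calc ‖β‖ = ‖f z - (f z - β)‖ := by congr 1; ring
            _ ≤ _ := norm_sub_le _ _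
        linarith
      calc ‖f z‖ / (‖f z - α‖ * ‖f z - β‖) ≤ δ / ((‖α‖ / 2) * (‖β‖ / 2)) := by
            rw [h]; gcongr
        _ = 4 * δ / (‖α‖ * ‖β‖) := by field_simp; ring
        _ ≤ εP := by rw [hexp]; linarith
    · have q0 : ‖α‖ ≤ 1 / δ / 2 := by
        rw [le_div_iff₀ two_pos, le_div_iff₀ hδ]; linarith
      have q0' : ‖β‖ ≤ 1 / δ / 2 := by
        rw [le_div_iff₀ two_pos, le_div_iff₀ hδ]; linarith
      have q1 : 1 / δ / 2 ≤ ‖f z - α‖ := by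
        have : ‖f z‖ - ‖α‖ ≤ ‖f z - α‖ := norm_sub_norm_le _ _
        linarith
      have q2 : 1 / δ / 2 ≤ ‖f z - β‖ := by
        have : ‖f z‖ - ‖β‖ ≤ ‖f z - β‖ := norm_sub_norm_le _ _
        linarith
      calc ‖f z‖ / (‖f z - α‖ * ‖f z - β‖) ≤ (1 / δ) / ((1 / δ / 2) * (1 / δ / 2)) := by
            rw [h]; gcongr
        _ = 4 * δ := by field_simp; ring
        _ ≤ εP := by
            rw [hexp]
            have : 0 ≤ 4 * δ / (‖α‖ * ‖β‖) := by positivity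
            linarith
  obtain ⟨c, hc1, hc2⟩ := chain hf hβ0 hα hβ hCon hE (δ / 2) (by positivity)
  have hbox : ∀ j, ∀ z ∈ D, |z.im - (c j).im| < 4 → 1 ≤ |z.re - (c j).re| := by
    intro j z hz h1
    by_contra h2
    push Not at h2
    have h3 : ‖z - c j‖ ≤ 8 := by
      calc ‖z - c j‖ ≤ |(z - c j).re| + |(z - c j).im| := Complex.norm_le_abs_re_add_abs_im _
        _ ≤ 8 := by rw [Complex.sub_re, Complex.sub_im]; linarith
    obtain ⟨-, -, h4⟩ := hc2 j (z - c j) h3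
    rw [add_sub_cancel] at h4
    have : ‖f z‖ ≤ ‖deriv f z‖ + ‖deriv f z - f z‖ := by
      calc ‖f z‖ = ‖deriv f z - (deriv f z - f z)‖ := by congr 1; ring
        _ ≤ _ := norm_sub_le _ _
    linarith [hz.2.2.1, hz.2.2.2.2]
  obtain ⟨R3, hR3⟩ := pl4 t1 t2 D φ _ εP (R2 + 1) c hDo hεPp hφc hφf hc1 hbox ((εP + κ0) / 2)
    (by linarith)
  obtain ⟨z, hz1, hz2, hz3, hz4⟩ := hcon (max R3 (R2 + 1))
  have hz5 : R3 ≤ ‖z‖ := (le_max_left _ _).trans hz1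
  have hz6 : R2 + 1 ≤ ‖z‖ := (le_max_right _ _).trans hz1
  have hCδ : C < 1 / δ := by
    rw [lt_div_iff₀ hδ]
    nlinarith
  have hz7 : ‖deriv f z‖ < δ / 8 := by
    rcases hR1 z (by linarith) hz2 (hz3.trans hCδ.le) with h | h
    · linarith
    · exact h
  have hz8 : ε / 2 < ‖f z‖ := by
    have : ‖deriv f z - f z‖ ≤ ‖deriv f z‖ + ‖f z‖ := norm_sub_le _ _
    linarith
  have hzD : z ∈ D := ⟨by linarith, hz2, by linarith, by linarith, by linarith⟩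
  have hz9 := hR3 z hzD hz5
  have hz10 : κ0 ≤ ‖φ z‖ := by
    obtain ⟨n1, n2⟩ := hne z (subset_closure hzD)
    have n3 : 0 < ‖f z - α‖ := lt_of_lt_of_le hdα n1
    have n4 : 0 < ‖f z - β‖ := lt_of_lt_of_le hdβ n2
    simp only [hφ, norm_div, norm_mul]
    rw [hκ0]
    have n5 : ‖f z - α‖ ≤ C + ‖α‖ := (norm_sub_le _ _).trans (by linarith)
    have n6 : ‖f z - β‖ ≤ C + ‖β‖ := (norm_sub_le _ _).trans (by linarith)
    gcongr
  linarith

end Pool.Agent.H978R3.SL
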