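import Pool.Agent.H978R3.SL.App

set_option autoImplicit false

open Set Filter Topology Metric Bornology

namespace Pool.Agent.H978R3.SL

/-- second application: where `f` is large, so is `f'` -/
theorem app2 (t1 : TaskPL1) (t2 : TaskPL2) {f : ℂ → ℂ} (hf : MF f) {α β : ℂ}
    (hβ0 : β ≠ 0) (hα : HF f α) (hβ : HF f β) (hCon : Con α β)
    (hE : ∀ δ > 0, ∀ R : ℝ, ∃ z, R ≤ ‖z‖ ∧ AnalyticAt ℂ f z ∧ ‖f z - β‖ ≤ δ)
    (hA1 : ∀ C : ℝ, ∀ ε > 0, ∃ R : ℝ, ∀ z, R ≤ ‖z‖ → AnalyticAt ℂ f z → ‖f z‖ ≤ C →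
      ‖deriv f z - f z‖ < ε) (C : ℝ) :
    ∃ K R : ℝ, ∀ z, R ≤ ‖z‖ → AnalyticAt ℂ f z → ‖deriv f z‖ ≤ C → ‖f z‖ ≤ K := by
  by_contra hcon
  push Not at hcon
  have hC0 : 0 ≤ C := by
    obtain ⟨z, -, -, h, -⟩ := hcon 0 0
    exact (norm_nonneg _).trans h
  have hβp : 0 < ‖β‖ := norm_pos_iff.2 hβ0
  set K : ℝ := C + 2 * ‖β‖ + 2 with hK
  set K' : ℝ := K + 2 + ‖β‖ + (2 * ‖β‖ * Real.exp 8 + 1) with hK'
  have he8 : 0 < 2 * ‖β‖ * Real.exp 8 + 1 := by positivity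
  obtain ⟨R1, hR1⟩ := hA1 K' 1 one_pos
  obtain ⟨dβ, hdβ, Rβ, hmβ⟩ := hβ 1 one_pos
  set R2 : ℝ := max Rβ R1 with hR2
  have hR2β : Rβ ≤ R2 := le_max_left _ _
  have hR21 : R1 ≤ R2 := le_max_right _ _
  set D : Set ℂ := {z | R2 < ‖z‖ ∧ AnalyticAt ℂ f z ∧ K' < ‖f z‖ ∧ ‖deriv f z‖ < K} with hD
  have hDo : IsOpen D := by
    rw [isOpen_iff_mem_nhds]
    rintro z ⟨a1, a2, a3, a5⟩
    filter_upwards [continuous_norm.continuousAt.eventually_const_lt a1, a2.eventually_analyticAt,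
      a2.continuousAt.norm.eventually_const_lt a3,
      a2.deriv.continuousAt.norm.eventually_lt_const a5] with w b1 b2 b3 b5
    exact ⟨b1, b2, b3, b5⟩
  have hcl : ∀ z ∈ closure D, AnalyticAt ℂ f z ∧ R2 ≤ ‖z‖ ∧ K' < ‖f z‖ ∧ ‖deriv f z‖ ≤ K := by
    intro z hz
    have hA : AnalyticAt ℂ f z := closure_analytic hf (F := deriv f) (fun z h => h.deriv) (D := D)
      (B := K) (fun w hw => ⟨hw.2.1, hw.2.2.2.le⟩) hz
    have b1 : R2 ≤ ‖z‖ := by
      by_contra h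
      push Not at h
      obtain ⟨w, hw1, hw2⟩ := mem_closure_iff_nhds.1 hz _
        (continuous_norm.continuousAt.eventually_lt_const h)
      exact absurd hw2.1 (not_lt.2 (le_of_lt hw1))
    have b3 : K' ≤ ‖f z‖ := by
      by_contra h
      push Not at h
      obtain ⟨w, hw1, hw2⟩ := mem_closure_iff_nhds.1 hz _
        (hA.continuousAt.norm.eventually_lt_const h)
      exact absurd hw2.2.2.1 (not_lt.2 (le_of_lt hw1))
    have b5 : ‖deriv f z‖ ≤ K := by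
      by_contra h
      push Not at h
      obtain ⟨w, hw1, hw2⟩ := mem_closure_iff_nhds.1 hz _
        (hA.deriv.continuousAt.norm.eventually_const_lt h)
      exact absurd hw2.2.2.2 (not_lt.2 (le_of_lt hw1))
    refine ⟨hA, b1, ?_, b5⟩
    rcases b3.lt_or_eq with h | h
    · exact h
    · exfalso
      have h1 := hR1 z (hR21.trans b1) hA h.symm.le
      have : ‖f z‖ ≤ ‖deriv f z‖ + ‖deriv f z - f z‖ := by
        calc ‖f z‖ = ‖deriv f z - (deriv f z - f z)‖ := by congr 1; ring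
          _ ≤ _ := norm_sub_le _ _
      linarith
  set φ : ℂ → ℂ := fun z => 1 / (deriv f z - β) with hφ
  have hne : ∀ z ∈ closure D, dβ ≤ ‖deriv f z - β‖ := by
    intro z hz
    obtain ⟨b0, b1, b2, b3⟩ := hcl z hz
    by_contra h
    push Not at h
    have h1 := (hmβ z (hR2β.trans b1) b0).2 h
    have : ‖f z‖ ≤ ‖f z - β‖ + ‖β‖ := by
      calc ‖f z‖ = ‖(f z - β) + β‖ := by congr 1; ring
        _ ≤ _ := norm_add_le _ _
    linarith
  have hφc : ∀ z ∈ closure D, R2 + 1 ≤ ‖z‖ → DifferentiableAt ℂ φ z ∧ ‖φ z‖ ≤ 1 / dβ := by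
    intro z hz _
    obtain ⟨b0, b1, b2, b3⟩ := hcl z hz
    have n1 := hne z hz
    have n3 : deriv f z - β ≠ 0 := norm_pos_iff.1 (lt_of_lt_of_le hdβ n1)
    constructor
    · exact (differentiableAt_const 1).div (b0.deriv.differentiableAt.sub_const β) n3
    · simp only [hφ, norm_div, norm_one]
      gcongr
  have hφf : ∀ z ∈ frontier D, R2 + 1 ≤ ‖z‖ → ‖φ z‖ ≤ 1 / (K - ‖β‖) := by
    intro z hz hzR
    rw [hDo.frontier_eq] at hz
    obtain ⟨b0, b1, b2, b3⟩ := hcl z hz.1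
    have hor : ‖deriv f z‖ = K := by
      by_contra h
      apply hz.2
      exact ⟨by linarith, b0, b2, lt_of_le_of_ne b3 h⟩
    have q1 : K - ‖β‖ ≤ ‖deriv f z - β‖ := by
      rw [← hor]; exact norm_sub_norm_le _ _
    simp only [hφ, norm_div, norm_one]
    have : 0 < K - ‖β‖ := by rw [hK]; linarith
    gcongr
  obtain ⟨c, hc1, hc2⟩ := chain hf hβ0 hα hβ hCon hE 1 one_pos
  have hbox : ∀ j, ∀ z ∈ D, |z.im - (c j).im| < 4 → 1 ≤ |z.re - (c j).re| := by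
    intro j z hz h1
    by_contra h2
    push Not at h2
    have h3 : ‖z - c j‖ ≤ 8 := by
      calc ‖z - c j‖ ≤ |(z - c j).re| + |(z - c j).im| := Complex.norm_le_abs_re_add_abs_im _
        _ ≤ 8 := by rw [Complex.sub_re, Complex.sub_im]; linarith
    obtain ⟨-, h4, -⟩ := hc2 j (z - c j) h3
    rw [add_sub_cancel] at h4
    linarith [hz.2.2.1]
  have hKβ : 0 < K - ‖β‖ := by rw [hK]; linarith
  have hlt : 1 / (K - ‖β‖) < 1 / (C + ‖β‖ + 1) := by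
    apply one_div_lt_one_div_of_lt (by positivity)
    rw [hK]; linarith
  obtain ⟨R3, hR3⟩ := pl4 t1 t2 D φ _ (1 / (K - ‖β‖)) (R2 + 1) c hDo (by positivity) hφc hφf hc1
    hbox (1 / (C + ‖β‖ + 1)) hlt
  obtain ⟨z, hz1, hz2, hz3, hz4⟩ := hcon K' (max R3 (R2 + 1))
  have hz5 : R3 ≤ ‖z‖ := (le_max_left _ _).trans hz1
  have hz6 : R2 + 1 ≤ ‖z‖ := (le_max_right _ _).trans hz1
  have hzD : z ∈ D := ⟨by linarith, hz2, hz4, by rw [hK]; linarith⟩
  have hz9 := hR3 z hzD hz5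
  have n1 := hne z (subset_closure hzD)
  have n2 : 0 < ‖deriv f z - β‖ := lt_of_lt_of_le hdβ n1
  simp only [hφ, norm_div, norm_one] at hz9
  rw [one_div_le_one_div n2 (by positivity)] at hz9
  have : ‖deriv f z - β‖ ≤ ‖deriv f z‖ + ‖β‖ := norm_sub_le _ _
  linarith

end Pool.Agent.H978R3.SL
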