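import Mathlib

set_option autoImplicit false

open Set Filter Topology Metric Bornology

namespace Pool.Agent.H978R3.SL

/-- Montel along an ultrafilter, eventual version. -/
theorem montelU {ι : Type*} {W : Set ℂ} (hWo : IsOpen W) (F : ι → ℂ → ℂ) (M : ℝ)
    (𝒰 : Ultrafilter ι)
    (h : ∀ᶠ n in (𝒰 : Filter ι), DifferentiableOn ℂ (F n) W ∧ ∀ z ∈ W, ‖F n z‖ ≤ M) :
    ∃ Φ : ℂ → ℂ, DifferentiableOn ℂ Φ W ∧
      TendstoLocallyUniformlyOn F Φ (𝒰 : Filter ι) W := by
  have h1 : ∀ z, ∃ v : ℂ, z ∈ W → Tendsto (fun n => F n z) 𝒰 (𝓝 v) := by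
    intro z
    by_cases hz : z ∈ W
    · have hcomp := isCompact_closedBall (0 : ℂ) M
      have hle : ((𝒰.map (fun n => F n z) : Ultrafilter ℂ) : Filter ℂ) ≤ 𝓟 (closedBall 0 M) := by
        rw [le_principal_iff, Ultrafilter.coe_map, Filter.mem_map]
        filter_upwards [h] with n hn
        show F n z ∈ closedBall 0 M
        rw [mem_closedBall_zero_iff]
        exact hn.2 z hz
      obtain ⟨v, -, hv⟩ := hcomp.ultrafilter_le_nhds _ hle
      exact ⟨v, fun _ => hv⟩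
    · exact ⟨0, fun h => absurd h hz⟩
  choose Φ hΦ using h1
  have hlu : TendstoLocallyUniformlyOn F Φ (𝒰 : Filter ι) W := by
    rw [Metric.tendstoLocallyUniformlyOn_iff]
    intro ε hε x hx
    obtain ⟨r, hr, hrW⟩ := Metric.isOpen_iff.1 hWo x hx
    obtain ⟨n0, hn0⟩ := h.exists
    have hM0 : 0 ≤ M := (norm_nonneg _).trans (hn0.2 x hx)
    set L : ℝ := (2 * M + 1) / r with hL
    have hLp : 0 < L := by positivity
    have key : ∀ᶠ n in (𝒰 : Filter ι), ∀ y ∈ ball x r, dist (F n y) (F n x) ≤ L * dist y x := by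
      filter_upwards [h] with n hn y hy
      have hmaps : MapsTo (F n) (ball x r) (closedBall (F n x) (2 * M + 1)) := by
        intro w hw
        rw [mem_closedBall, dist_eq_norm]
        calc ‖F n w - F n x‖ ≤ ‖F n w‖ + ‖F n x‖ := norm_sub_le _ _
          _ ≤ M + M := add_le_add (hn.2 w (hrW hw)) (hn.2 x hx)
          _ ≤ 2 * M + 1 := by linarith
      exact Complex.dist_le_div_mul_dist_of_mapsTo_ball (hn.1.mono hrW) hmaps hy
    have keyf : ∀ y ∈ ball x r, dist (Φ y) (Φ x) ≤ L * dist y x := by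
      intro y hy
      have h1 : Tendsto (fun n => dist (F n y) (F n x)) 𝒰 (𝓝 (dist (Φ y) (Φ x))) :=
        (hΦ y (hrW hy)).dist (hΦ x hx)
      refine le_of_tendsto h1 ?_
      filter_upwards [key] with n hn using hn y hy
    refine ⟨ball x (min r (ε / (4 * L))), mem_nhdsWithin_of_mem_nhds
      (ball_mem_nhds _ (by positivity)), ?_⟩
    have hx' : ∀ᶠ n in (𝒰 : Filter ι), dist (F n x) (Φ x) < ε / 4 :=
      (Metric.tendsto_nhds.1 (hΦ x hx)) _ (by positivity)
    filter_upwards [hx', key] with n hn hk y hy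
    have hy1 : y ∈ ball x r := ball_subset_ball (min_le_left _ _) hy
    have hy2 : dist y x < ε / (4 * L) := lt_of_lt_of_le hy (min_le_right _ _)
    have hy3 : L * dist y x < ε / 4 := by
      calc L * dist y x < L * (ε / (4 * L)) := by gcongr
        _ = ε / 4 := by field_simp
    have h1 := hk y hy1
    have h2 := keyf y hy1
    calc dist (Φ y) (F n y) ≤ dist (Φ y) (Φ x) + dist (Φ x) (F n x) + dist (F n x) (F n y) :=
          dist_triangle4 _ _ _ _
      _ < ε := by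
          rw [dist_comm (Φ x), dist_comm (F n x) (F n y)]
          linarith
  refine ⟨Φ, ?_, hlu⟩
  exact hlu.differentiableOn (h.mono fun n hn => hn.1) hWo

/-- a pole -/
def Pole (g : ℂ → ℂ) (z : ℂ) : Prop :=
  MeromorphicAt g z ∧ Tendsto g (𝓝[≠] z) (cobounded ℂ)

/-- meromorphic functions: every point is a point of analyticity or a pole -/
def MF (g : ℂ → ℂ) : Prop := ∀ z, AnalyticAt ℂ g z ∨ Pole g z

theorem Pole.not_analyticAt {g : ℂ → ℂ} {z : ℂ} (h : Pole g z) : ¬ AnalyticAt ℂ g z := by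
  intro ha
  have h1 : Tendsto g (𝓝[≠] z) (𝓝 (g z)) :=
    ha.continuousAt.tendsto.mono_left nhdsWithin_le_nhds
  have := Metric.disjoint_nhds_cobounded (g z)
  exact this.le_bot.trans_eq rfl |> fun _ => (h1.not_tendsto this) h.2

theorem MF.meromorphicAt {g : ℂ → ℂ} (hg : MF g) (z : ℂ) : MeromorphicAt g z := by
  rcases hg z with h | h
  · exact h.meromorphicAt
  · exact h.1

theorem MF.pole_of {g : ℂ → ℂ} (hg : MF g) {z : ℂ} (h : ¬ AnalyticAt ℂ g z) : Pole g z :=
  (hg z).resolve_left h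

/-- local bound propagates -/
theorem spread {g : ℂ → ℂ} (hg : MF g) {β : ℂ} {η K R : ℝ} (hK : 0 < K)
    (h : ∀ z, R ≤ ‖z‖ → AnalyticAt ℂ g z → ‖g z - β‖ < η → ‖deriv g z‖ ≤ K)
    {z1 : ℂ} (hz1 : R + η / (2 * K) ≤ ‖z1‖) (ha : AnalyticAt ℂ g z1)
    (hs : ‖g z1 - β‖ < η / 2) :
    ∀ z ∈ ball z1 (η / (2 * K)), AnalyticAt ℂ g z ∧ ‖g z - β‖ < η := by
  intro z hz
  have hη : 0 < η := by
    have := norm_nonneg (g z1 - β); linarith
  rw [mem_ball, dist_eq_norm] at hz
  by_cases hzz : z = z1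
  · subst hzz; exact ⟨ha, by linarith⟩
  set γ : ℝ → ℂ := fun t => z1 + t * (z - z1) with hγ
  have hγc : Continuous γ := by fun_prop
  have hopen : IsOpen {w : ℂ | AnalyticAt ℂ g w ∧ ‖g w - β‖ < η} := by
    rw [isOpen_iff_mem_nhds]
    rintro w ⟨hw1, hw2⟩
    have e1 := hw1.eventually_analyticAt
    have e2 : ∀ᶠ x in 𝓝 w, ‖g x - β‖ < η :=
      ((hw1.continuousAt.sub continuousAt_const).norm.eventually_lt continuousAt_const hw2)
    filter_upwards [e1, e2] with x h1 h2 using ⟨h1, h2⟩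
  set T : Set ℝ := Icc 0 1 ∩ γ ⁻¹' {w : ℂ | AnalyticAt ℂ g w ∧ ‖g w - β‖ < η}ᶜ with hT
  have hTc : IsCompact T := isCompact_Icc.inter_right (hopen.isClosed_compl.preimage hγc)
  by_contra hcon
  have hTne : T.Nonempty := ⟨1, ⟨by norm_num, le_refl _⟩, by
    simp only [hγ, mem_preimage, mem_compl_iff, mem_ofPred_eq]
    intro h2
    apply hcon
    have : z1 + ((1:ℝ):ℂ) * (z - z1) = z := by push_cast; ring
    rw [this] at h2
    exact h2⟩
  obtain ⟨t0, ht0, hmin⟩ := hTc.exists_isLeast hTne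
  have ht0I : t0 ∈ Icc (0:ℝ) 1 := ht0.1
  have hgood : ∀ s ∈ Ico (0:ℝ) t0, AnalyticAt ℂ g (γ s) ∧ ‖g (γ s) - β‖ < η := by
    intro s hs'
    by_contra hc
    have : s ∈ T := ⟨⟨hs'.1, hs'.2.le.trans ht0I.2⟩, hc⟩
    exact absurd (hmin this) (not_le.2 hs'.2)
  have hγnorm : ∀ s ∈ Icc (0:ℝ) 1, R ≤ ‖γ s‖ := by
    intro s hs'
    have h1 : ‖γ s - z1‖ ≤ ‖z - z1‖ := by
      simp only [hγ, add_sub_cancel_left, norm_mul, Complex.norm_real, Real.norm_eq_abs,
        abs_of_nonneg hs'.1]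
      have := norm_nonneg (z - z1)
      nlinarith [hs'.2]
    have h2 : ‖z1‖ ≤ ‖γ s‖ + ‖γ s - z1‖ := by
      calc ‖z1‖ = ‖γ s - (γ s - z1)‖ := by congr 1; ring
        _ ≤ _ := norm_sub_le _ _
    linarith
  have ht0pos : 0 < t0 := by
    rcases ht0I.1.lt_or_eq with h' | h'
    · exact h'
    · exfalso
      have := ht0.2
      rw [← h'] at this
      apply this
      have : γ 0 = z1 := by simp [hγ]
      simp only [mem_ofPred_eq, this]
      exact ⟨ha, by linarith⟩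
  have hmvt : ∀ s ∈ Ico (0:ℝ) t0, ‖g (γ s) - β‖ ≤ ‖g z1 - β‖ + K * ‖z - z1‖ := by
    intro s hs'
    have hd : ∀ x ∈ Icc (0:ℝ) s, HasDerivWithinAt (fun t => g (γ t))
        (deriv g (γ x) * (z - z1)) (Icc 0 s) x := by
      intro x hx
      have hx' : x ∈ Ico (0:ℝ) t0 := ⟨hx.1, hx.2.trans_lt hs'.2⟩
      have h1 : HasDerivAt g (deriv g (γ x)) (γ x) := (hgood x hx').1.differentiableAt.hasDerivAt
      have h2 : HasDerivAt γ (z - z1) x := by
        have h3 := ((Complex.ofRealCLM.hasDerivAt (x := x)).mul_const (z - z1)).const_add z1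
        have h4 : Complex.ofRealCLM 1 * (z - z1) = z - z1 := by simp
        rw [h4] at h3
        exact h3
      exact (h1.comp x h2).hasDerivWithinAt
    have hb : ∀ x ∈ Ico (0:ℝ) s, ‖deriv g (γ x) * (z - z1)‖ ≤ K * ‖z - z1‖ := by
      intro x hx
      have hx' : x ∈ Ico (0:ℝ) t0 := ⟨hx.1, hx.2.trans hs'.2⟩
      rw [norm_mul]
      gcongr
      exact h _ (hγnorm x ⟨hx.1, hx'.2.le.trans ht0I.2⟩) (hgood x hx').1 (hgood x hx').2
    have h3 := norm_image_sub_le_of_norm_deriv_le_segment' hd hb s ⟨hs'.1, le_refl _⟩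
    have h0 : γ 0 = z1 := by simp [hγ]
    simp only [h0, sub_zero] at h3
    have hs1 : s ≤ 1 := hs'.2.le.trans ht0I.2
    have hs0 := hs'.1
    have h4 : K * ‖z - z1‖ * s ≤ K * ‖z - z1‖ := by
      have : 0 ≤ K * ‖z - z1‖ := by positivity
      nlinarith
    calc ‖g (γ s) - β‖ = ‖(g z1 - β) + (g (γ s) - g z1)‖ := by congr 1; ring
      _ ≤ ‖g z1 - β‖ + ‖g (γ s) - g z1‖ := norm_add_le _ _
      _ ≤ _ := by linarith
  have hη' : ‖g z1 - β‖ + K * ‖z - z1‖ < η := by
    have : K * ‖z - z1‖ < η / 2 := by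
      calc K * ‖z - z1‖ < K * (η / (2 * K)) := by gcongr
        _ = η / 2 := by field_simp
    linarith
  have hlim : Tendsto γ (𝓝[<] t0) (𝓝[≠] (γ t0)) := by
    apply tendsto_nhdsWithin_of_tendsto_nhds_of_eventually_within
    · exact (hγc.tendsto t0).mono_left nhdsWithin_le_nhds
    · filter_upwards [self_mem_nhdsWithin] with s hs'
      simp only [mem_compl_iff, mem_singleton_iff, hγ]
      intro he
      have h1 : ((s:ℂ) - t0) * (z - z1) = 0 := by linear_combination he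
      rcases mul_eq_zero.1 h1 with h2 | h2
      · have : s = t0 := by exact_mod_cast sub_eq_zero.1 h2
        exact absurd this (ne_of_lt hs')
      · exact hzz (sub_eq_zero.1 h2)
  have hev : ∀ᶠ s in 𝓝[<] t0, ‖g (γ s) - β‖ ≤ ‖g z1 - β‖ + K * ‖z - z1‖ := by
    filter_upwards [Ioo_mem_nhdsLT ht0pos] with s hs' using hmvt s ⟨hs'.1.le, hs'.2⟩
  rcases hg (γ t0) with hA | hP
  · have h1 : Tendsto (fun s => ‖g (γ s) - β‖) (𝓝[<] t0) (𝓝 ‖g (γ t0) - β‖) := by
      have : ContinuousAt (fun s => ‖g (γ s) - β‖) t0 :=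
        ((hA.continuousAt.comp hγc.continuousAt).sub continuousAt_const).norm
      exact this.tendsto.mono_left nhdsWithin_le_nhds
    have h2 := le_of_tendsto h1 hev
    exact ht0.2 ⟨hA, lt_of_le_of_lt h2 hη'⟩
  · have h1 : Tendsto (fun s => ‖g (γ s)‖) (𝓝[<] t0) atTop :=
      tendsto_norm_cobounded_atTop.comp (hP.2.comp hlim)
    have h2 := (h1.eventually_gt_atTop (η + ‖β‖))
    obtain ⟨s, hs1, hs2⟩ := (h2.and hev).exists
    have : ‖g (γ s)‖ ≤ ‖g (γ s) - β‖ + ‖β‖ := by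
      calc ‖g (γ s)‖ = ‖(g (γ s) - β) + β‖ := by congr 1; ring
        _ ≤ _ := norm_add_le _ _
    linarith

/-- the local dichotomy -/
theorem dich {g : ℂ → ℂ} (hg : MF g) {β : ℂ} {η K R : ℝ} (hη : 0 < η) (hK : 0 < K)
    (h : ∀ z, R ≤ ‖z‖ → AnalyticAt ℂ g z → ‖g z - β‖ < η → ‖deriv g z‖ ≤ K)
    {z0 : ℂ} (hz0 : R + η / (2 * K) + η / (4 * K) ≤ ‖z0‖) :
    (∀ z ∈ ball z0 (η / (4 * K)), AnalyticAt ℂ g z ∧ ‖g z - β‖ < η) ∨
    (∀ z ∈ ball z0 (η / (4 * K)), AnalyticAt ℂ g z → η / 2 ≤ ‖g z - β‖) := by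
  by_cases hc : ∃ z1 ∈ ball z0 (η / (4 * K)), AnalyticAt ℂ g z1 ∧ ‖g z1 - β‖ < η / 2
  · left
    obtain ⟨z1, hz1, ha, hs⟩ := hc
    intro z hz
    rw [mem_ball, dist_eq_norm] at hz1 hz
    have h1 : R + η / (2 * K) ≤ ‖z1‖ := by
      have : ‖z0‖ ≤ ‖z1‖ + ‖z1 - z0‖ := by
        calc ‖z0‖ = ‖z1 - (z1 - z0)‖ := by congr 1; ring
          _ ≤ _ := norm_sub_le _ _
      linarith
    apply spread hg hK h h1 ha hs
    rw [mem_ball, dist_eq_norm]
    calc ‖z - z1‖ = ‖(z - z0) - (z1 - z0)‖ := by congr 1; ring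
      _ ≤ ‖z - z0‖ + ‖z1 - z0‖ := norm_sub_le _ _
      _ < η / (4 * K) + η / (4 * K) := add_lt_add hz hz1
      _ = η / (2 * K) := by field_simp; ring
  · right
    push Not at hc
    intro z hz ha
    exact hc z hz ha

open Classical in
/-- the chart at infinity -/
noncomputable def qf (g : ℂ → ℂ) (β : ℂ) (z : ℂ) : ℂ :=
  if AnalyticAt ℂ g z then (g z - β)⁻¹ else 0

theorem qf_analyticAt {g : ℂ → ℂ} (hg : MF g) {β z : ℂ} (h : AnalyticAt ℂ g z → g z ≠ β) :
    AnalyticAt ℂ (qf g β) z := by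
  rcases hg z with hA | hP
  · have e : qf g β =ᶠ[𝓝 z] fun w => (g w - β)⁻¹ := by
      filter_upwards [hA.eventually_analyticAt] with w hw
      simp [qf, hw]
    rw [analyticAt_congr e]
    exact (hA.sub analyticAt_const).inv (sub_ne_zero.2 (h hA))
  · have h0 : qf g β z = 0 := by simp [qf, hP.not_analyticAt]
    have hev : ∀ᶠ w in 𝓝[≠] z, AnalyticAt ℂ g w := hP.1.eventually_analyticAt
    have hinf : Tendsto (fun w => g w - β) (𝓝[≠] z) (cobounded ℂ) := by
      rw [← tendsto_norm_atTop_iff_cobounded] at *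
      have h1 := tendsto_norm_cobounded_atTop.comp hP.2
      apply tendsto_atTop_mono (f := fun w => ‖g w‖ - ‖β‖)
      · intro w; exact norm_sub_norm_le _ _
      · exact tendsto_atTop_add_const_right _ _ h1
    have e : qf g β =ᶠ[𝓝[≠] z] fun w => (g w - β)⁻¹ := by
      filter_upwards [hev] with w hw
      simp [qf, hw]
    apply Complex.analyticAt_of_differentiable_on_punctured_nhds_of_continuousAt
    · have hne : ∀ᶠ w in 𝓝[≠] z, g w - β ≠ 0 := by
        have := (tendsto_norm_cobounded_atTop.comp hinf).eventually_gt_atTop 0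
        filter_upwards [this] with w hw
        exact norm_pos_iff.1 hw
      have hev2 : ∀ᶠ w in 𝓝[≠] z, qf g β =ᶠ[𝓝 w] fun w => (g w - β)⁻¹ := by
        filter_upwards [hev] with w hw
        filter_upwards [hw.eventually_analyticAt] with x hx
        simp [qf, hx]
      filter_upwards [hne, hev, hev2] with w h1 h2 h3
      have := ((h2.sub analyticAt_const).inv h1).differentiableAt
      exact (h3.differentiableAt_iff (𝕜 := ℂ)).2 this
    · rw [continuousAt_iff_punctured_nhds, h0]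
      apply Tendsto.congr' e.symm
      exact tendsto_inv₀_cobounded.comp hinf

theorem qf_ball {g : ℂ → ℂ} (hg : MF g) {β : ℂ} {c : ℝ} (hc : 0 < c) {W : Set ℂ} 
    (h : ∀ z ∈ W, AnalyticAt ℂ g z → c ≤ ‖g z - β‖) :
    (∀ z ∈ W, AnalyticAt ℂ (qf g β) z) ∧ ∀ z ∈ W, ‖qf g β z‖ ≤ 1 / c := by
  constructor
  · intro z hz
    apply qf_analyticAt hg
    intro hA he
    have := h z hz hA
    rw [he, sub_self, norm_zero] at this
    linarith
  · intro z hz
    unfold qf
    split_ifs with hA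
    · rw [norm_inv, ← one_div]
      exact one_div_le_one_div_of_le hc (h z hz hA)
    · rw [norm_zero]; positivity

/-- Liouville for meromorphic functions bounded off a discrete set -/
theorem liouvilleM (J : ℂ → ℂ) (hm : ∀ z, MeromorphicAt J z) (M : ℝ)
    (hb : ∀ z, ∀ᶠ w in 𝓝[≠] z, ‖J w‖ ≤ M) :
    ∃ κ : ℂ, ∀ z, ∀ᶠ w in 𝓝[≠] z, J w = κ := by
  have hex : ∀ z, ∃ L : ℂ, Tendsto J (𝓝[≠] z) (𝓝 L) := by
    intro z
    have h0 : 0 ≤ meromorphicOrderAt J z := by
      by_contra hneg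
      push Not at hneg
      have h1 := (tendsto_cobounded_iff_meromorphicOrderAt_neg (hm z)).2 hneg
      have h2 := (tendsto_norm_cobounded_atTop.comp h1).eventually_gt_atTop M
      obtain ⟨w, hw1, hw2⟩ := (h2.and (hb z)).exists
      exact absurd hw2 (not_le.2 hw1)
    exact tendsto_nhds_of_meromorphicOrderAt_nonneg (hm z) h0
  choose J' hJ' using hex
  have han : ∀ z, AnalyticAt ℂ J' z := by
    intro z
    have hev : ∀ᶠ w in 𝓝[≠] z, AnalyticAt ℂ J w := (hm z).eventually_analyticAt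
    have hev' : ∀ᶠ w in 𝓝[≠] z, ∀ᶠ x in 𝓝 w, J' x = J x := by
      filter_upwards [hev] with w hw
      filter_upwards [hw.eventually_analyticAt] with x hx
      exact tendsto_nhds_unique (hJ' x) (hx.continuousAt.tendsto.mono_left nhdsWithin_le_nhds)
    apply Complex.analyticAt_of_differentiable_on_punctured_nhds_of_continuousAt
    · filter_upwards [hev, hev'] with w h1 h2
      have h3 : J' =ᶠ[𝓝 w] J := h2
      exact (h3.differentiableAt_iff (𝕜 := ℂ)).2 h1.differentiableAt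
    · rw [continuousAt_iff_punctured_nhds]
      apply Tendsto.congr' _ (hJ' z)
      filter_upwards [hev'] with w hw
      exact hw.self_of_nhds.symm
  have hbd : ∀ z, ‖J' z‖ ≤ M := by
    intro z
    exact le_of_tendsto (hJ' z).norm (hb z)
  have hdiff : Differentiable ℂ J' := fun z => (han z).differentiableAt
  refine ⟨J' 0, fun z => ?_⟩
  have hev : ∀ᶠ w in 𝓝[≠] z, AnalyticAt ℂ J w := (hm z).eventually_analyticAt
  filter_upwards [hev] with w hw
  have h1 : J' w = J w :=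
    tendsto_nhds_unique (hJ' w) (hw.continuousAt.tendsto.mono_left nhdsWithin_le_nhds)
  rw [← h1]
  exact hdiff.apply_eq_apply_of_bounded
    ((isBounded_iff_forall_norm_le).2 ⟨M, by rintro _ ⟨x, rfl⟩; exact hbd x⟩) _ _

end Pool.Agent.H978R3.SL
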