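import Pool.Agent.H978R3.SL.Base

set_option autoImplicit false

open Set Filter Topology Metric Bornology

namespace Pool.Agent.H978R3.SL

/-- the quantitative form of value sharing on the whole plane -/
def HG (g : ℂ → ℂ) (c : ℂ) : Prop :=
  ∀ ε > 0, ∃ δ > 0, ∀ ζ, AnalyticAt ℂ g ζ →
    (‖g ζ - c‖ < δ → ‖deriv g ζ - c‖ ≤ ε) ∧ (‖deriv g ζ - c‖ < δ → ‖g ζ - c‖ ≤ ε)

theorem HG.left {g : ℂ → ℂ} {c : ℂ} (h : HG g c) {ζ : ℂ} (hA : AnalyticAt ℂ g ζ)
    (he : g ζ = c) : deriv g ζ = c := by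
  have : ‖deriv g ζ - c‖ ≤ 0 := by
    apply le_of_forall_pos_le_add
    intro ε hε
    obtain ⟨δ, hδ, h2⟩ := h ε hε
    have := (h2 ζ hA).1 (by rw [he, sub_self, norm_zero]; exact hδ)
    linarith
  exact sub_eq_zero.1 (norm_le_zero_iff.1 this)

theorem HG.right {g : ℂ → ℂ} {c : ℂ} (h : HG g c) {ζ : ℂ} (hA : AnalyticAt ℂ g ζ)
    (he : deriv g ζ = c) : g ζ = c := by
  have : ‖g ζ - c‖ ≤ 0 := by
    apply le_of_forall_pos_le_add
    intro ε hε
    obtain ⟨δ, hδ, h2⟩ := h ε hε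
    have := (h2 ζ hA).2 (by rw [he, sub_self, norm_zero]; exact hδ)
    linarith
  exact sub_eq_zero.1 (norm_le_zero_iff.1 this)

theorem nearc {g : ℂ → ℂ} (hg : MF g) {c : ℂ} (hc : c ≠ 0) (h : HG g c) :
    ∃ c1 > 0, ∃ M ≥ 0, ∀ ζ, AnalyticAt ℂ g ζ → ‖g ζ - c‖ < c1 →
      ‖deriv g ζ - g ζ‖ ≤ M * ‖g ζ - c‖ := by
  have hcp : 0 < ‖c‖ := norm_pos_iff.2 hc
  obtain ⟨η, hη, hmod⟩ := h (‖c‖ / 2) (by positivity)
  set K : ℝ := 3 * ‖c‖ / 2 with hKdef
  have hK : 0 < K := by positivity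
  have hd1 : ∀ z, AnalyticAt ℂ g z → ‖g z - c‖ < η → ‖deriv g z‖ ≤ K := by
    intro z hz hz2
    have h1 := (hmod z hz).1 hz2
    calc ‖deriv g z‖ = ‖(deriv g z - c) + c‖ := by congr 1; ring
      _ ≤ ‖deriv g z - c‖ + ‖c‖ := norm_add_le _ _
      _ ≤ K := by rw [hKdef]; linarith
  set ρ : ℝ := η / (4 * K) with hρ
  have hρp : 0 < ρ := by positivity
  have h2ρ : η / (2 * K) = 2 * ρ := by rw [hρ]; field_simp; ring
  refine ⟨min (η / 2) (‖c‖ * ρ / 4), by positivity, (2 * K / ρ + K) * (2 / ‖c‖), by positivity, ?_⟩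
  intro ζ hζ hs
  have hs1 : ‖g ζ - c‖ < η / 2 := lt_of_lt_of_le hs (min_le_left _ _)
  have hs2 : ‖g ζ - c‖ < ‖c‖ * ρ / 4 := lt_of_lt_of_le hs (min_le_right _ _)
  have hsp := spread hg (R := - (η / (2 * K))) hK (fun z _ hz hz2 => hd1 z hz hz2)
    (z1 := ζ) (by simp) hζ hs1
  rw [h2ρ] at hsp
  -- lower bound
  have hlow : ∀ z ∈ ball ζ (2 * ρ), ∀ w ∈ ball ζ (2 * ρ), ‖c‖ / 2 * ‖z - w‖ ≤ ‖g z - g w‖ := by
    intro z hz w hw
    have hconv : Convex ℝ (ball ζ (2 * ρ)) := convex_ball _ _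
    have h1 : ‖(fun x => g x - c * x) z - (fun x => g x - c * x) w‖ ≤ ‖c‖ / 2 * ‖z - w‖ := by
      apply hconv.norm_image_sub_le_of_norm_deriv_le (𝕜 := ℂ) _ _ hw hz
      · intro x hx
        exact ((hsp x hx).1.differentiableAt.sub (by fun_prop))
      · intro x hx
        have hdx : deriv (fun x => g x - c * x) x = deriv g x - c := by
          have h1 := (hsp x hx).1.differentiableAt.hasDerivAt
          have h2 : HasDerivAt (fun x : ℂ => c * x) c x := by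
            simpa using (hasDerivAt_id x).const_mul c
          exact (h1.sub h2).deriv
        rw [hdx]
        exact (hmod x (hsp x hx).1).1 (hsp x hx).2
    have h2 : ‖c * (z - w)‖ ≤ ‖g z - g w‖ + ‖(g z - c * z) - (g w - c * w)‖ := by
      calc ‖c * (z - w)‖ = ‖(g z - g w) - ((g z - c * z) - (g w - c * w))‖ := by congr 1; ring
        _ ≤ _ := norm_sub_le _ _
    rw [norm_mul] at h2
    simp only at h1
    linarith
  have hcb : closedBall ζ ρ ⊆ ball ζ (2 * ρ) := closedBall_subset_ball (by linarith)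
  have hroot : c ∈ g '' closedBall ζ ρ := by
    have hdc : DiffContOnCl ℂ g (ball ζ ρ) := by
      apply DifferentiableOn.diffContOnCl
      intro x hx
      have hx' : x ∈ closedBall ζ ρ := closure_ball_subset_closedBall hx
      exact (hsp x (hcb hx')).1.differentiableAt.differentiableWithinAt
    have hζb : ζ ∈ ball ζ (2 * ρ) := mem_ball_self (by positivity)
    have h1 := hdc.ball_subset_image_closedBall hρp (ε := ‖c‖ * ρ / 2) (by
      intro z hz
      have hz' : z ∈ ball ζ (2 * ρ) := hcb (sphere_subset_closedBall hz)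
      have := hlow z hz' ζ hζb
      rw [mem_sphere, dist_eq_norm] at hz
      rw [hz] at this
      linarith) (by
      have hb : ball ζ (2 * ρ) ∈ 𝓝[≠] ζ :=
        mem_nhdsWithin_of_mem_nhds (ball_mem_nhds _ (by positivity))
      have : ∀ᶠ z in 𝓝[≠] ζ, g z ≠ g ζ := by
        filter_upwards [hb, self_mem_nhdsWithin] with z hz hz2 he
        have := hlow z hz ζ hζb
        rw [he, sub_self, norm_zero] at this
        have h3 : 0 < ‖z - ζ‖ := norm_pos_iff.2 (sub_ne_zero.2 hz2)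
        nlinarith
      exact this.frequently.filter_mono nhdsWithin_le_nhds)
    apply h1
    rw [mem_ball, dist_eq_norm, norm_sub_rev]
    linarith
  obtain ⟨ζ0, hζ0, hgζ0⟩ := hroot
  have hζ0' : ζ0 ∈ ball ζ (2 * ρ) := hcb hζ0
  have hζb : ζ ∈ ball ζ (2 * ρ) := mem_ball_self (by positivity)
  have hdζ0 : deriv g ζ0 = c := h.left (hsp ζ0 hζ0').1 hgζ0
  -- Lipschitz bound for the numerator
  have hN : ‖(fun x => deriv g x - g x) ζ - (fun x => deriv g x - g x) ζ0‖ ≤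
      (2 * K / ρ + K) * ‖ζ - ζ0‖ := by
    have hconv : Convex ℝ (closedBall ζ ρ) := convex_closedBall _ _
    have hζc : ζ ∈ closedBall ζ ρ := mem_closedBall_self hρp.le
    apply hconv.norm_image_sub_le_of_norm_deriv_le (𝕜 := ℂ) _ _ hζ0 hζc
    · intro x hx
      have hx' := (hsp x (hcb hx)).1
      exact hx'.deriv.differentiableAt.sub hx'.differentiableAt
    · intro x hx
      have hx' := (hsp x (hcb hx)).1
      have e1 : deriv (fun x => deriv g x - g x) x = deriv (deriv g) x - deriv g x :=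
        (hx'.deriv.differentiableAt.hasDerivAt.sub hx'.differentiableAt.hasDerivAt).deriv
      rw [e1]
      have hsub : ∀ y ∈ closedBall x (ρ / 2), y ∈ ball ζ (2 * ρ) := by
        intro y hy
        rw [mem_closedBall] at hy hx
        rw [mem_ball]
        calc dist y ζ ≤ dist y x + dist x ζ := dist_triangle _ _ _
          _ ≤ ρ / 2 + ρ := add_le_add hy hx
          _ < 2 * ρ := by linarith
      have h2 : ‖deriv (deriv g) x‖ ≤ K / (ρ / 2) := by
        apply Complex.norm_deriv_le_of_forall_mem_sphere_norm_le (by positivity)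
        · apply DifferentiableOn.diffContOnCl
          intro y hy
          have hy' : y ∈ closedBall x (ρ / 2) := closure_ball_subset_closedBall hy
          exact (hsp y (hsub y hy')).1.deriv.differentiableAt.differentiableWithinAt
        · intro y hy
          have hy' := hsub y (sphere_subset_closedBall hy)
          exact hd1 y (hsp y hy').1 (hsp y hy').2
      calc ‖deriv (deriv g) x - deriv g x‖ ≤ ‖deriv (deriv g) x‖ + ‖deriv g x‖ := norm_sub_le _ _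
        _ ≤ K / (ρ / 2) + K := add_le_add h2 (hd1 x hx' (hsp x (hcb hx)).2)
        _ = 2 * K / ρ + K := by field_simp
  have h5 := hlow ζ hζb ζ0 hζ0'
  rw [hgζ0] at h5
  simp only [hdζ0, hgζ0, sub_self, sub_zero] at hN
  have h6 : ‖ζ - ζ0‖ ≤ 2 / ‖c‖ * ‖g ζ - c‖ := by
    rw [div_mul_eq_mul_div, le_div_iff₀ hcp]
    linarith
  calc ‖deriv g ζ - g ζ‖ ≤ (2 * K / ρ + K) * ‖ζ - ζ0‖ := hN
    _ ≤ (2 * K / ρ + K) * (2 / ‖c‖ * ‖g ζ - c‖) := by gcongr
    _ = _ := by ring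

/-- the main inequality of case A -/
theorem ineqA {g : ℂ → ℂ} (hg : MF g) {α β : ℂ} (hα : α ≠ 0) (hβ : β ≠ 0) (hab : α ≠ β)
    (h1 : HG g α) (h2 : HG g β) :
    ∃ M ≥ 0, ∀ ζ, AnalyticAt ℂ g ζ →
      ‖deriv g ζ - g ζ‖ ≤ M * (‖g ζ - α‖ * ‖g ζ - β‖) := by
  obtain ⟨c1, hc1, M1, hM1, e1⟩ := nearc hg hα h1
  obtain ⟨c2, hc2, M2, hM2, e2⟩ := nearc hg hβ h2
  set d : ℝ := ‖α - β‖ with hd
  have hdp : 0 < d := norm_pos_iff.2 (sub_ne_zero.2 hab)
  set c0 : ℝ := min (min c1 c2) (d / 2) with hc0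
  have hc0p : 0 < c0 := by positivity
  -- dichotomy data
  obtain ⟨η, hη, hmod⟩ := h2 1 one_pos
  set K : ℝ := ‖β‖ + 1 with hKdef
  have hK : 0 < K := by positivity
  have hdd : ∀ z, -(η / (2 * K) + η / (4 * K)) ≤ ‖z‖ → AnalyticAt ℂ g z → ‖g z - β‖ < η →
      ‖deriv g z‖ ≤ K := by
    intro z _ hz hz2
    have h1 := (hmod z hz).1 hz2
    calc ‖deriv g z‖ = ‖(deriv g z - β) + β‖ := by congr 1; ring
      _ ≤ ‖deriv g z - β‖ + ‖β‖ := norm_add_le _ _
      _ ≤ K := by rw [hKdef]; linarith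
  set r : ℝ := η / (4 * K) with hr
  have hrp : 0 < r := by positivity
  set C1 : ℝ := (η / (r / 2) + (‖β‖ + η)) / (c0 * c0) with hC1
  set C2 : ℝ := (2 / η) / (r / 2) * (1 + d / c0) + (1 + ‖β‖ / c0) / c0 with hC2
  refine ⟨M1 / (d / 2) + M2 / (d / 2) + C1 + C2, by positivity, ?_⟩
  intro ζ hζ
  have hα0 := norm_nonneg (g ζ - α)
  have hβ0 := norm_nonneg (g ζ - β)
  have hdle : d ≤ ‖g ζ - α‖ + ‖g ζ - β‖ := by
    calc d = ‖(g ζ - β) - (g ζ - α)‖ := by rw [hd]; congr 1; ring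
      _ ≤ ‖g ζ - β‖ + ‖g ζ - α‖ := norm_sub_le _ _
      _ = _ := by ring
  have hC1p : 0 ≤ C1 := by positivity
  have hC2p : 0 ≤ C2 := by positivity
  have hM1p : 0 ≤ M1 / (d / 2) := by positivity
  have hM2p : 0 ≤ M2 / (d / 2) := by positivity
  have hprod : 0 ≤ ‖g ζ - α‖ * ‖g ζ - β‖ := by positivity
  by_cases hca : ‖g ζ - α‖ < c0
  · have h3 := e1 ζ hζ (lt_of_lt_of_le hca ((min_le_left _ _).trans (min_le_left _ _)))
    have h4 : d / 2 ≤ ‖g ζ - β‖ := by
      have : c0 ≤ d / 2 := min_le_right _ _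
      linarith
    calc ‖deriv g ζ - g ζ‖ ≤ M1 * ‖g ζ - α‖ := h3
      _ = M1 / (d / 2) * (‖g ζ - α‖ * (d / 2)) := by field_simp
      _ ≤ M1 / (d / 2) * (‖g ζ - α‖ * ‖g ζ - β‖) := by gcongr
      _ ≤ _ := by nlinarith
  by_cases hcb : ‖g ζ - β‖ < c0
  · have h3 := e2 ζ hζ (lt_of_lt_of_le hcb ((min_le_left _ _).trans (min_le_right _ _)))
    have h4 : d / 2 ≤ ‖g ζ - α‖ := by
      have : c0 ≤ d / 2 := min_le_right _ _
      linarith
    calc ‖deriv g ζ - g ζ‖ ≤ M2 * ‖g ζ - β‖ := h3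
      _ = M2 / (d / 2) * ((d / 2) * ‖g ζ - β‖) := by field_simp
      _ ≤ M2 / (d / 2) * (‖g ζ - α‖ * ‖g ζ - β‖) := by gcongr
      _ ≤ _ := by nlinarith
  push Not at hca hcb
  rcases dich hg hη hK hdd (z0 := ζ) (by simp [hr]) with hT | hT
  · -- type 1
    have h3 : ‖deriv g ζ‖ ≤ η / (r / 2) := by
      have hdg : deriv (fun x => g x - β) ζ = deriv g ζ := by
        simp
      rw [← hdg]
      have hsub : closedBall ζ (r / 2) ⊆ ball ζ r := closedBall_subset_ball (by linarith)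
      apply Complex.norm_deriv_le_of_forall_mem_sphere_norm_le (by positivity)
      · apply DifferentiableOn.diffContOnCl
        intro y hy
        have hy' : y ∈ closedBall ζ (r / 2) := closure_ball_subset_closedBall hy
        exact ((hT y (hsub hy')).1.differentiableAt.sub_const β).differentiableWithinAt
      · intro y hy
        exact (hT y (hsub (sphere_subset_closedBall hy))).2.le
    have h4 : ‖g ζ‖ ≤ ‖β‖ + η := by
      have := (hT ζ (mem_ball_self hrp)).2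
      calc ‖g ζ‖ = ‖(g ζ - β) + β‖ := by congr 1; ring
        _ ≤ ‖g ζ - β‖ + ‖β‖ := norm_add_le _ _
        _ ≤ _ := by linarith
    have h5 : ‖deriv g ζ - g ζ‖ ≤ η / (r / 2) + (‖β‖ + η) :=
      (norm_sub_le _ _).trans (add_le_add h3 h4)
    calc ‖deriv g ζ - g ζ‖ ≤ η / (r / 2) + (‖β‖ + η) := h5
      _ = C1 * (c0 * c0) := by rw [hC1]; field_simp
      _ ≤ C1 * (‖g ζ - α‖ * ‖g ζ - β‖) := by gcongr
      _ ≤ _ := by nlinarith
  · -- type 2
    obtain ⟨hq1, hq2⟩ := qf_ball hg (c := η / 2) (by positivity) hT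
    have hsub : closedBall ζ (r / 2) ⊆ ball ζ r := closedBall_subset_ball (by linarith)
    have h3 : ‖deriv (qf g β) ζ‖ ≤ (1 / (η / 2)) / (r / 2) := by
      apply Complex.norm_deriv_le_of_forall_mem_sphere_norm_le (by positivity)
      · apply DifferentiableOn.diffContOnCl
        intro y hy
        have hy' : y ∈ closedBall ζ (r / 2) := closure_ball_subset_closedBall hy
        exact (hq1 y (hsub hy')).differentiableAt.differentiableWithinAt
      · intro y hy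
        exact hq2 y (hsub (sphere_subset_closedBall hy))
    have hne : g ζ - β ≠ 0 := by
      intro h0
      rw [h0, norm_zero] at hcb
      linarith
    have h4 : deriv (qf g β) ζ = - deriv g ζ / (g ζ - β) ^ 2 := by
      have e : qf g β =ᶠ[𝓝 ζ] fun w => (g w - β)⁻¹ := by
        filter_upwards [hζ.eventually_analyticAt] with w hw
        simp [qf, hw]
      rw [e.deriv_eq]
      exact ((hζ.differentiableAt.hasDerivAt.sub_const β).inv hne).deriv
    have h5 : ‖deriv g ζ‖ = ‖deriv (qf g β) ζ‖ * ‖g ζ - β‖ ^ 2 := by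
      rw [h4, norm_div, norm_neg, norm_pow]
      have : ‖g ζ - β‖ ≠ 0 := norm_ne_zero_iff.2 hne
      field_simp
    have h6 : ‖g ζ - β‖ ≤ (1 + d / c0) * ‖g ζ - α‖ := by
      have : ‖g ζ - β‖ ≤ ‖g ζ - α‖ + d := by
        calc ‖g ζ - β‖ = ‖(g ζ - α) + (α - β)‖ := by congr 1; ring
          _ ≤ _ := norm_add_le _ _
      have h7 : d ≤ d / c0 * ‖g ζ - α‖ := by
        calc d = d / c0 * c0 := by field_simp
          _ ≤ _ := by gcongr
      linarith
    have h7 : ‖g ζ‖ ≤ (1 + ‖β‖ / c0) / c0 * (‖g ζ - α‖ * ‖g ζ - β‖) := by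
      have a1 : ‖g ζ‖ ≤ ‖g ζ - β‖ + ‖β‖ := by
        calc ‖g ζ‖ = ‖(g ζ - β) + β‖ := by congr 1; ring
          _ ≤ _ := norm_add_le _ _
      have a2 : ‖β‖ ≤ ‖β‖ / c0 * ‖g ζ - β‖ := by
        calc ‖β‖ = ‖β‖ / c0 * c0 := by field_simp
          _ ≤ _ := by gcongr
      calc ‖g ζ‖ ≤ (1 + ‖β‖ / c0) * ‖g ζ - β‖ := by linarith
        _ = (1 + ‖β‖ / c0) / c0 * (c0 * ‖g ζ - β‖) := by field_simp
        _ ≤ _ := by gcongr
    have h8 : ‖deriv g ζ‖ ≤ (2 / η) / (r / 2) * (1 + d / c0) * (‖g ζ - α‖ * ‖g ζ - β‖) := by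
      rw [h5]
      calc ‖deriv (qf g β) ζ‖ * ‖g ζ - β‖ ^ 2
          ≤ (1 / (η / 2)) / (r / 2) * (‖g ζ - β‖ * ((1 + d / c0) * ‖g ζ - α‖)) := by
            rw [pow_two]; gcongr
        _ = _ := by field_simp
    calc ‖deriv g ζ - g ζ‖ ≤ ‖deriv g ζ‖ + ‖g ζ‖ := norm_sub_le _ _
      _ ≤ C2 * (‖g ζ - α‖ * ‖g ζ - β‖) := by rw [hC2, add_mul]; exact add_le_add h8 h7
      _ ≤ _ := by nlinarith

end Pool.Agent.H978R3.SL
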