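import Pool.Agent.H978R3.SL.CaseA

set_option autoImplicit false

open Set Filter Topology Metric Bornology

namespace Pool.Agent.H978R3.SL

/-- uniqueness for `E' = φ E` -/
theorem ode_zero {E φ : ℂ → ℂ} (hE : Differentiable ℂ E) (hφ : Continuous φ)
    (h : ∀ z, deriv E z = φ z * E z) {z0 : ℂ} (h0 : E z0 = 0) : ∀ z, E z = 0 := by
  intro z
  set γ : ℝ → ℂ := fun t => z0 + t * (z - z0) with hγ
  have hγc : Continuous γ := by fun_prop
  obtain ⟨C, hC⟩ := (isCompact_Icc (a := (0:ℝ)) (b := 1)).exists_bound_of_continuousOn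
    (f := fun t => φ (γ t) * (z - z0)) (by fun_prop)
  have hC0 : 0 ≤ C := (norm_nonneg _).trans (hC 0 (by norm_num))
  have hder : ∀ t : ℝ, HasDerivAt (fun t => E (γ t)) (φ (γ t) * E (γ t) * (z - z0)) t := by
    intro t
    have h1 : HasDerivAt E (φ (γ t) * E (γ t)) (γ t) := by
      rw [← h]; exact (hE _).hasDerivAt
    have h2 : HasDerivAt γ (z - z0) t := by
      have h3 := ((Complex.ofRealCLM.hasDerivAt (x := t)).mul_const (z - z0)).const_add z0
      have h4 : Complex.ofRealCLM 1 * (z - z0) = z - z0 := by simp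
      rw [h4] at h3
      exact h3
    exact h1.comp t h2
  have h1 := norm_le_gronwallBound_of_norm_deriv_right_le (f := fun t => E (γ t))
    (f' := fun t => φ (γ t) * E (γ t) * (z - z0)) (δ := 0) (K := C) (ε := 0) (a := 0) (b := 1)
    (fun t _ => (hder t).continuousAt.continuousWithinAt)
    (fun t _ => (hder t).hasDerivWithinAt) (by simp [hγ, h0])
    (by
      intro t ht
      have h2 := hC t ⟨ht.1, ht.2.le⟩
      rw [norm_mul] at h2
      rw [norm_mul, norm_mul, add_zero]
      have := norm_nonneg (E (γ t))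
      nlinarith) 1 (by norm_num)
  simp only [gronwallBound_ε0_δ0] at h1
  have h3 : γ 1 = z := by simp [hγ]
  rw [h3] at h1
  exact norm_le_zero_iff.1 h1

/-- entire solutions of a proper Riccati equation are constant -/
theorem riccati {q : ℂ → ℂ} (hq : Differentiable ℂ q) {a s κ : ℂ} (ha : a ≠ 0)
    (h : ∀ z, deriv q z = -(a * q z ^ 2 + s * q z + κ)) : ∀ z, deriv q z = 0 := by
  obtain ⟨r, hr⟩ := IsAlgClosed.exists_pow_nat_eq (s ^ 2 - 4 * a * κ) (n := 2) (by norm_num)
  set p1 : ℂ := (-s + r) / (2 * a) with hp1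
  set p2 : ℂ := (-s - r) / (2 * a) with hp2
  have hfac : ∀ x : ℂ, a * x ^ 2 + s * x + κ = a * (x - p1) * (x - p2) := by
    intro x
    rw [hp1, hp2]
    field_simp
    linear_combination hr
  have hder : ∀ z, deriv q z = -a * (q z - p1) * (q z - p2) := by
    intro z; rw [h, hfac]; ring
  have hHas : ∀ z, HasDerivAt q (-a * (q z - p1) * (q z - p2)) z := by
    intro z; rw [← hder]; exact (hq z).hasDerivAt
  intro z0
  by_contra hne
  have hn1 : q z0 - p1 ≠ 0 := by
    intro h0; apply hne; rw [hder, h0]; ring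
  have hn2 : q z0 - p2 ≠ 0 := by
    intro h0; apply hne; rw [hder, h0]; ring
  by_cases hpp : p1 = p2
  · set v : ℂ := q z0 - p1 with hv
    set E : ℂ → ℂ := fun z => (q z - p1) * (1 + a * v * (z - z0)) - v with hEdef
    have hE : ∀ z, HasDerivAt E (-a * (q z - p1) * E z) z := by
      intro z
      have h1 := ((hHas z).sub_const p1).mul
        ((((hasDerivAt_id z).sub_const z0).const_mul (a * v)).const_add 1)
      have h2 := h1.sub_const v
      convert! h2 using 1
      rw [← hpp, hEdef]
      simp only [id]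
      ring
    have hz := ode_zero (E := E) (φ := fun z => -a * (q z - p1))
      (fun z => (hE z).differentiableAt) (by have := hq.continuous; fun_prop)
      (fun z => (hE z).deriv) (z0 := z0) (by simp [hEdef, hv])
    have h3 := hz (z0 - 1 / (a * v))
    simp only [hEdef] at h3
    have h4 : (1 : ℂ) + a * v * (z0 - 1 / (a * v) - z0) = 0 := by
      field_simp; ring
    rw [h4, mul_zero, zero_sub, neg_eq_zero] at h3
    exact hn1 h3
  · set y0 : ℂ := (q z0 - p1) / (q z0 - p2) with hy0
    have hy0ne : y0 ≠ 0 := div_ne_zero hn1 hn2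
    set lam : ℂ := a * (p2 - p1) with hlam
    have hlamne : lam ≠ 0 := mul_ne_zero ha (sub_ne_zero.2 (Ne.symm hpp))
    set E : ℂ → ℂ := fun z => (q z - p1) - y0 * Complex.exp (lam * (z - z0)) * (q z - p2)
      with hEdef
    have hE : ∀ z, HasDerivAt E (-a * (q z - p2) * E z) z := by
      intro z
      have he : HasDerivAt (fun z => y0 * Complex.exp (lam * (z - z0)))
          (y0 * (Complex.exp (lam * (z - z0)) * lam)) z := by
        have h1 : HasDerivAt (fun z : ℂ => lam * (z - z0)) lam z := by
          simpa using ((hasDerivAt_id z).sub_const z0).const_mul lam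
        exact (h1.cexp).const_mul y0
      have h1 := ((hHas z).sub_const p1).sub (he.mul ((hHas z).sub_const p2))
      convert! h1 using 1
      rw [hEdef, hlam]
      simp only
      ring
    have hz := ode_zero (E := E) (φ := fun z => -a * (q z - p2))
      (fun z => (hE z).differentiableAt) (by have := hq.continuous; fun_prop)
      (fun z => (hE z).deriv) (z0 := z0) (by
        simp only [hEdef, sub_self, mul_zero, Complex.exp_zero, mul_one, hy0]
        rw [div_mul_cancel₀ _ hn2]; ring)
    have h3 := hz (z0 - Complex.log y0 / lam)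
    simp only [hEdef] at h3
    have h4 : lam * (z0 - Complex.log y0 / lam - z0) = - Complex.log y0 := by
      field_simp; ring
    rw [h4, Complex.exp_neg, Complex.exp_log hy0ne, mul_inv_cancel₀ hy0ne, one_mul] at h3
    apply hpp
    linear_combination (-1) * h3

/-- derivative of the chart at infinity -/
theorem qf_hasDerivAt {g : ℂ → ℂ} {β z : ℂ} (hz : AnalyticAt ℂ g z) (hne : g z ≠ β) :
    deriv (qf g β) z = - deriv g z / (g z - β) ^ 2 := by
  have e : qf g β =ᶠ[𝓝 z] fun w => (g w - β)⁻¹ := by
    filter_upwards [hz.eventually_analyticAt] with w hw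
    simp [qf, hw]
  rw [e.deriv_eq]
  exact ((hz.differentiableAt.hasDerivAt.sub_const β).inv (sub_ne_zero.2 hne)).deriv

theorem riccati_step {g : ℂ → ℂ} (hg : MF g) {a b κ : ℂ} (ha : a ≠ 0) (h1 : HG g a)
    (hκ : κ ≠ 0) (hc : b - 1 / κ ≠ a)
    (h : ∀ z, AnalyticAt ℂ g z → deriv g z - g z = κ * ((g z - a) * (g z - b))) :
    ∀ z, AnalyticAt ℂ g z → deriv g z = 0 := by
  set c : ℂ := b - 1 / κ with hcdef
  have hκc : κ * (c - b) = -1 := by rw [hcdef]; field_simp; ring
  have hom : ∀ z, AnalyticAt ℂ g z → g z ≠ c := by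
    intro z hz he
    have h2 := h z hz
    have h3 : deriv g z = a := by
      rw [he] at h2
      linear_combination h2 + (c - a) * hκc
    have h4 := h1.right hz h3
    exact hc (he ▸ h4)
  set q := qf g c with hq
  have hqan : ∀ z, AnalyticAt ℂ q z := fun z => qf_analyticAt hg (hom z)
  have hqd : Differentiable ℂ q := fun z => (hqan z).differentiableAt
  have hode : ∀ z, AnalyticAt ℂ g z → deriv q z = -(a * q z ^ 2 + κ * (c - a) * q z + κ) := by
    intro z hz
    have hne : g z - c ≠ 0 := sub_ne_zero.2 (hom z hz)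
    have hqz : q z = (g z - c)⁻¹ := by simp [hq, qf, hz]
    rw [hq, qf_hasDerivAt hz (hom z hz), ← hq, hqz]
    have h2 : deriv g z = g z + κ * ((g z - a) * (g z - b)) := by linear_combination h z hz
    rw [h2]
    have hb : b = c + 1 / κ := by rw [hcdef]; ring
    rw [hb]
    field_simp
    ring
  have hode2 : ∀ z, deriv q z = -(a * q z ^ 2 + κ * (c - a) * q z + κ) := by
    intro z
    have hcont1 : Tendsto (deriv q) (𝓝[≠] z) (𝓝 (deriv q z)) :=
      (hqan z).deriv.continuousAt.tendsto.mono_left nhdsWithin_le_nhds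
    have hcq := hqd.continuous
    have hcont2 : Tendsto (fun z => -(a * q z ^ 2 + κ * (c - a) * q z + κ)) (𝓝[≠] z)
        (𝓝 (-(a * q z ^ 2 + κ * (c - a) * q z + κ))) := by
      have : Continuous (fun z => -(a * q z ^ 2 + κ * (c - a) * q z + κ)) := by fun_prop
      exact (this.tendsto z).mono_left nhdsWithin_le_nhds
    apply tendsto_nhds_unique hcont1
    apply hcont2.congr'
    filter_upwards [(hg.meromorphicAt z).eventually_analyticAt] with w hw
    exact (hode w hw).symm
  have hq0 := riccati hqd ha hode2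
  intro z hz
  have h5 := hq0 z
  rw [hq, qf_hasDerivAt hz (hom z hz), div_eq_zero_iff] at h5
  rcases h5 with h5 | h5
  · exact neg_eq_zero.1 h5
  · exact absurd (pow_eq_zero_iff (two_ne_zero) |>.1 h5) (sub_ne_zero.2 (hom z hz))

/-- Case A: both shared values are nonzero -/
theorem caseA {g : ℂ → ℂ} (hg : MF g) {α β : ℂ} (hα : α ≠ 0) (hβ : β ≠ 0) (hab : α ≠ β)
    (h1 : HG g α) (h2 : HG g β) :
    (∀ ζ, AnalyticAt ℂ g ζ → deriv g ζ = g ζ) ∨ (∀ ζ, AnalyticAt ℂ g ζ → deriv g ζ = 0) := by
  obtain ⟨M, hM, hineq⟩ := ineqA hg hα hβ hab h1 h2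
  set J : ℂ → ℂ := fun z => (deriv g z - g z) / ((g z - α) * (g z - β)) with hJ
  have hJm : ∀ z, MeromorphicAt J z := by
    intro z
    have hgm := hg.meromorphicAt z
    exact (hgm.deriv.sub hgm).div ((hgm.sub (MeromorphicAt.const _ _)).mul
      (hgm.sub (MeromorphicAt.const _ _)))
  have hJb : ∀ z, ∀ᶠ w in 𝓝[≠] z, ‖J w‖ ≤ M := by
    intro z
    filter_upwards [(hg.meromorphicAt z).eventually_analyticAt] with w hw
    simp only [hJ, norm_div, norm_mul]
    have h3 := hineq w hw
    apply div_le_of_le_mul₀ (by positivity) hM h3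
  obtain ⟨κ, hκ⟩ := liouvilleM J hJm M hJb
  have heq : ∀ z, AnalyticAt ℂ g z → deriv g z - g z = κ * ((g z - α) * (g z - β)) := by
    intro z hz
    have c1 : Tendsto (fun w => deriv g w - g w) (𝓝[≠] z) (𝓝 (deriv g z - g z)) :=
      (hz.deriv.continuousAt.sub hz.continuousAt).tendsto.mono_left nhdsWithin_le_nhds
    have c2 : Tendsto (fun w => κ * ((g w - α) * (g w - β))) (𝓝[≠] z)
        (𝓝 (κ * ((g z - α) * (g z - β)))) := by
      have : ContinuousAt (fun w => κ * ((g w - α) * (g w - β))) z := by
        have := hz.continuousAt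
        fun_prop
      exact this.tendsto.mono_left nhdsWithin_le_nhds
    apply tendsto_nhds_unique c1
    apply c2.congr'
    filter_upwards [hκ z, (hg.meromorphicAt z).eventually_analyticAt] with w hw hwa
    simp only [hJ] at hw
    by_cases hz0 : (g w - α) * (g w - β) = 0
    · have h3 := hineq w hwa
      rw [← norm_mul, hz0, norm_zero, mul_zero] at h3
      rw [hz0, mul_zero, norm_le_zero_iff.1 h3]
    · rw [div_eq_iff hz0] at hw
      exact hw.symm
  by_cases hκ0 : κ = 0
  · left
    intro z hz
    have := heq z hz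
    rw [hκ0, zero_mul] at this
    linear_combination this
  · right
    by_cases hc : β - 1 / κ = α
    · have hc2 : α - 1 / κ ≠ β := by
        intro hc2
        have : (2:ℂ) / κ = 0 := by linear_combination (-1) * hc + (-1) * hc2
        rcases div_eq_zero_iff.1 this with h | h
        · norm_num at h
        · exact hκ0 h
      apply riccati_step hg hβ h2 hκ0 hc2
      intro z hz
      rw [heq z hz]; ring
    · exact riccati_step hg hα h1 hκ0 hc heq

end Pool.Agent.H978R3.SL
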