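import Pool.Agent.H978R3.SL.CaseA2
import Pool.Agent.H228R4.SLB1
import Pool.Agent.H472R3.SLB2
import Pool.Agent.H606SL.SLB3

set_option autoImplicit false

open Set Filter Topology Metric Bornology

namespace Pool.Agent.H978R3.SL

theorem entire_log {E : ℂ → ℂ} (hE : Differentiable ℂ E) (h0 : ∀ s, E s ≠ 0) :
    ∃ v : ℂ → ℂ, Differentiable ℂ v ∧ ∀ s, Complex.exp (v s) = E s := by
  have hdE : Differentiable ℂ (deriv E) := by
    have : ContDiff ℂ 2 E := hE.contDiff
    exact this.differentiable_deriv_two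
  have hF : Differentiable ℂ (fun s => deriv E s / E s) := hdE.div hE h0
  obtain ⟨w, hw⟩ := hF.isExactOn_univ
  have hd : ∀ s, HasDerivAt (fun s => E s * Complex.exp (- w s)) 0 s := by
    intro s
    have h1 := (hE s).hasDerivAt
    have h2 : HasDerivAt (fun s => Complex.exp (- w s))
        (Complex.exp (- w s) * (-(deriv E s / E s))) s := ((hw s (mem_univ s)).neg).cexp
    have h3 := h1.mul h2
    have e : deriv E s * Complex.exp (-w s) + E s * (Complex.exp (- w s) * (-(deriv E s / E s)))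
        = 0 := by
      have := h0 s
      field_simp
      ring
    rw [e] at h3
    exact h3
  set c : ℂ := E 0 * Complex.exp (- w 0) with hc
  have hc0 : c ≠ 0 := mul_ne_zero (h0 0) (Complex.exp_ne_zero _)
  refine ⟨fun s => w s + Complex.log c, ?_, ?_⟩
  · intro s
    exact (hw s (mem_univ s)).differentiableAt.add_const _
  · intro s
    have h4 : E s * Complex.exp (- w s) = c :=
      is_const_of_deriv_eq_zero (f := fun s => E s * Complex.exp (- w s))
        (fun x => (hd x).differentiableAt) (fun x => (hd x).deriv) s 0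
    rw [Complex.exp_add, Complex.exp_log hc0, ← h4]
    rw [mul_comm (Complex.exp (w s)), mul_assoc, ← Complex.exp_add]
    simp

theorem caseB {g : ℂ → ℂ} (hg : MF g) {β : ℂ} (hβ : β ≠ 0) (h0 : HG g 0) (h1 : HG g β) :
    (∀ ζ, AnalyticAt ℂ g ζ → deriv g ζ = g ζ) ∨ (∀ ζ, AnalyticAt ℂ g ζ → deriv g ζ = 0) := by
  by_cases hex : ∃ ζ1, AnalyticAt ℂ g ζ1 ∧ g ζ1 ≠ 0
  swap
  · right
    intro ζ hζ
    apply h0.left hζ
    by_contra h
    exact hex ⟨ζ, hζ, h⟩
  obtain ⟨ζ1, hA1, hne1⟩ := hex
  left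
  set s1 : ℂ := Complex.log (g ζ1) with hs1
  have hexp1 : g ζ1 = Complex.exp s1 := (Complex.exp_log hne1).symm
  have hm : ∀ ε > 0, ∃ m > 0, ∀ ζ, AnalyticAt ℂ g ζ → ε ≤ ‖g ζ‖ → m ≤ ‖deriv g ζ‖ := by
    intro ε hε
    obtain ⟨δ, hδ, h2⟩ := h0 (ε / 2) (by positivity)
    refine ⟨δ, hδ, fun ζ hζ h3 => ?_⟩
    by_contra h4
    push Not at h4
    have h5 := (h2 ζ hζ).2 (by rwa [sub_zero])
    rw [sub_zero] at h5
    linarith
  obtain ⟨Ψ, hΨd, hΨ1, hΨ⟩ := Pool.Agent.H472R3.SLB2.taskB2 g s1 ζ1 hA1 hexp1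
    (fun ζ hζ h h' => h (by simpa using h0.right hζ h'))
    (fun a => Pool.Agent.H228R4.SLB1.taskB1 g a s1 ζ1 hg hA1 hexp1 hm)
  have hmul : ∀ s, deriv g (Ψ s) * deriv Ψ s = Complex.exp s := by
    intro s
    have a1 : HasDerivAt (g ∘ Ψ) (deriv g (Ψ s) * deriv Ψ s) s :=
      (hΨ s).1.differentiableAt.hasDerivAt.comp s (hΨd s).hasDerivAt
    have a2 : g ∘ Ψ = Complex.exp := funext fun s => (hΨ s).2
    rw [a2] at a1
    exact a1.unique (Complex.hasDerivAt_exp s)
  have hΨ'0 : ∀ s, deriv Ψ s ≠ 0 := by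
    intro s h
    have := hmul s
    rw [h, mul_zero] at this
    exact Complex.exp_ne_zero s this.symm
  have hdΨ : Differentiable ℂ (deriv Ψ) := by
    have : ContDiff ℂ 2 Ψ := hΨd.contDiff
    exact this.differentiable_deriv_two
  obtain ⟨v, hv, hve⟩ := entire_log hdΨ hΨ'0
  have hnv : ∀ s, ‖deriv Ψ s‖ = Real.exp (v s).re := by
    intro s
    rw [← hve, Complex.norm_exp]
  have hnm : ∀ s, ‖deriv g (Ψ s)‖ * ‖deriv Ψ s‖ = Real.exp s.re := by
    intro s
    rw [← norm_mul, hmul, Complex.norm_exp]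
  have hng : ∀ s, ‖g (Ψ s)‖ = Real.exp s.re := by
    intro s
    rw [(hΨ s).2, Complex.norm_exp]
  have hup : ∀ m : ℝ, 0 < m → ∀ s, m ≤ ‖deriv g (Ψ s)‖ → (v s).re ≤ s.re - Real.log m := by
    intro m hm0 s h
    have a1 := hnm s
    have a2 : m * Real.exp (v s).re ≤ Real.exp s.re := by
      rw [← a1, hnv]
      gcongr
    have a3 : Real.exp (Real.log m + (v s).re) ≤ Real.exp s.re := by
      rw [Real.exp_add, Real.exp_log hm0]; exact a2
    have := Real.exp_le_exp.1 a3
    linarith
  set s0 : ℂ := Complex.log β with hs0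
  have hβe : Complex.exp s0 = β := Complex.exp_log hβ
  have hpt : ∀ s, Complex.exp s = β → deriv Ψ s = 1 := by
    intro s hs
    have a1 : deriv g (Ψ s) = β := h1.left (hΨ s).1 ((hΨ s).2.trans hs)
    have a2 := hmul s
    rw [a1, hs] at a2
    exact mul_left_cancel₀ hβ (a2.trans (mul_one β).symm)
  have hsk : ∀ k : ℤ, Complex.exp (s0 + 2 * (Real.pi : ℂ) * Complex.I * k) = β := by
    intro k
    rw [Complex.exp_add, hβe]
    have : Complex.exp (2 * (Real.pi : ℂ) * Complex.I * k) = 1 := by
      rw [Complex.exp_eq_one_iff]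
      exact ⟨k, by ring⟩
    rw [this, mul_one]
  obtain ⟨κ, hκ⟩ := Pool.Agent.H606SL.taskB3 v s0 hv (by
      obtain ⟨m, hm0, hm1⟩ := hm 1 one_pos
      refine ⟨- Real.log m, fun s hs => ?_⟩
      have := hup m hm0 s (hm1 _ (hΨ s).1 (by rw [hng]; exact Real.one_le_exp hs))
      linarith) (by
      intro B
      obtain ⟨m, hm0, hm1⟩ := hm (Real.exp (-B)) (Real.exp_pos _)
      refine ⟨B - Real.log m, fun s hs => ?_⟩
      have := hup m hm0 s (hm1 _ (hΨ s).1 (by
        rw [hng]; exact Real.exp_le_exp.2 (abs_le.1 hs).1))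
      linarith [(abs_le.1 hs).2]) (by
      intro k
      have a1 := hpt _ (hsk k)
      have a2 := hnv (s0 + 2 * (Real.pi : ℂ) * Complex.I * k)
      rw [a1, norm_one] at a2
      exact (Real.exp_eq_one_iff _).1 a2.symm) (by
      obtain ⟨δ, hδ, h2⟩ := h0 1 one_pos
      refine ⟨- Real.log δ + 1, fun s hs => ?_⟩
      have a1 : ‖g (Ψ s)‖ < δ := by
        rw [hng, ← Real.exp_log hδ]
        apply Real.exp_lt_exp.2
        linarith
      have a2 := (h2 _ (hΨ s).1).1 (by rwa [sub_zero])
      rw [sub_zero] at a2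
      have a3 := hnm s
      rw [hnv] at a3
      have a4 : Real.exp s.re ≤ Real.exp (v s).re := by
        rw [← a3]
        have := Real.exp_pos (v s).re
        nlinarith
      exact Real.exp_le_exp.1 a4)
  have hvl : ∀ s, v s = v s0 + κ * (s - s0) := by
    intro s
    have hd : ∀ x, HasDerivAt (fun x => v x - κ * x) 0 x := by
      intro x
      have a1 := (hv x).hasDerivAt.sub ((hasDerivAt_id x).const_mul κ)
      rw [hκ, mul_one, sub_self] at a1
      exact a1
    have := is_const_of_deriv_eq_zero (f := fun x => v x - κ * x)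
      (fun x => (hd x).differentiableAt) (fun x => (hd x).deriv) s s0
    linear_combination this
  have hdΨe : ∀ s, deriv Ψ s = Complex.exp (κ * (s - s0)) := by
    intro s
    rw [← hve, hvl, Complex.exp_add, hve s0, hpt s0 hβe, one_mul]
  -- the points above `-β`
  have hbad : Complex.exp (κ * ((s0 + Real.pi * Complex.I) - s0)) = -1 → False := by
    intro h
    have a0 : Complex.exp (s0 + Real.pi * Complex.I) = -β := by
      rw [Complex.exp_add, hβe, Complex.exp_pi_mul_I]; ring
    have a1 := hmul (s0 + Real.pi * Complex.I)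
    rw [hdΨe, h, a0] at a1
    have a2 : deriv g (Ψ (s0 + Real.pi * Complex.I)) = β := by linear_combination (-1) * a1
    have a3 := h1.right (hΨ _).1 a2
    rw [(hΨ _).2, a0] at a3
    have : (2:ℂ) * β = 0 := by linear_combination (-1) * a3
    rcases mul_eq_zero.1 this with h | h
    · norm_num at h
    · exact hβ h
  have hκint : ∃ n : ℤ, κ = n := by
    have a1 := hpt _ (hsk 1)
    rw [hdΨe, Complex.exp_eq_one_iff] at a1
    obtain ⟨n, hn⟩ := a1
    refine ⟨n, ?_⟩
    have h2 := Complex.two_pi_I_ne_zero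
    apply mul_right_cancel₀ h2
    rw [← hn]
    push_cast
    ring
  obtain ⟨n, hn⟩ := hκint
  by_cases hκ0 : κ = 0
  · have hlin : ∀ s, Ψ s = Ψ 0 + s := by
      intro s
      have hd : ∀ x, HasDerivAt (fun x => Ψ x - x) 0 x := by
        intro x
        have a1 := (hΨd x).hasDerivAt.sub (hasDerivAt_id x)
        rw [hdΨe, hκ0, zero_mul, Complex.exp_zero, sub_self] at a1
        exact a1
      have := is_const_of_deriv_eq_zero (f := fun x => Ψ x - x)
        (fun x => (hd x).differentiableAt) (fun x => (hd x).deriv) s 0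
      linear_combination this
    intro ζ _
    have e1 : Ψ (ζ - Ψ 0) = ζ := by rw [hlin]; ring
    have e2 := hmul (ζ - Ψ 0)
    rw [hdΨe, hκ0, zero_mul, Complex.exp_zero, mul_one, ← (hΨ _).2, e1] at e2
    exact e2
  · exfalso
    -- `Ψ` is periodic with period `2πi/κ`
    have hlin : ∀ s, Ψ s = Ψ s0 + (Complex.exp (κ * (s - s0)) - 1) / κ := by
      intro s
      have hd : ∀ x, HasDerivAt (fun x => Ψ x - Complex.exp (κ * (x - s0)) / κ) 0 x := by
        intro x
        have b1 : HasDerivAt (fun x : ℂ => Complex.exp (κ * (x - s0)) / κ)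
            (Complex.exp (κ * (x - s0)) * (κ * 1) / κ) x :=
          ((((hasDerivAt_id x).sub_const s0).const_mul κ).cexp).div_const κ
        have a1 := (hΨd x).hasDerivAt.sub b1
        rw [hdΨe] at a1
        have e : Complex.exp (κ * (x - s0)) - Complex.exp (κ * (x - s0)) * (κ * 1) / κ = 0 := by
          field_simp; ring
        rw [e] at a1
        exact a1
      have := is_const_of_deriv_eq_zero (f := fun x => Ψ x - Complex.exp (κ * (x - s0)) / κ)
        (fun x => (hd x).differentiableAt) (fun x => (hd x).deriv) s s0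
      simp only [sub_self, mul_zero, Complex.exp_zero] at this
      rw [sub_div]
      linear_combination this
    set s' : ℂ := s0 + 2 * (Real.pi : ℂ) * Complex.I / κ with hs'
    have e1 : κ * (s' - s0) = 2 * (Real.pi : ℂ) * Complex.I := by
      rw [hs']; field_simp; ring
    have e2 : Ψ s' = Ψ s0 := by
      rw [hlin s', e1, Complex.exp_two_pi_mul_I, sub_self, zero_div, add_zero]
    have e3 : Complex.exp s' = Complex.exp s0 := by
      rw [← (hΨ s').2, ← (hΨ s0).2, e2]
    have e4 : Complex.exp (2 * (Real.pi : ℂ) * Complex.I / κ) = 1 := by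
      rw [hs', Complex.exp_add] at e3
      exact mul_left_cancel₀ (Complex.exp_ne_zero s0) (e3.trans (mul_one _).symm)
    rw [Complex.exp_eq_one_iff] at e4
    obtain ⟨m, hm'⟩ := e4
    have e5 : κ * m = 1 := by
      have h2 := Complex.two_pi_I_ne_zero
      have h3 : (2 * (Real.pi : ℂ) * Complex.I) * (κ * m) = (2 * (Real.pi : ℂ) * Complex.I) * 1 := by
        have : 2 * (Real.pi : ℂ) * Complex.I = κ * (m * (2 * (Real.pi : ℂ) * Complex.I)) := by
          rw [← hm']; field_simp
        linear_combination (-1) * this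
      exact mul_left_cancel₀ h2 h3
    have e6 : n * m = 1 := by
      rw [hn] at e5
      exact_mod_cast e5
    rcases Int.eq_one_or_neg_one_of_mul_eq_one e6 with h | h
    · apply hbad
      rw [hn, h, add_sub_cancel_left]
      push_cast
      rw [one_mul, Complex.exp_pi_mul_I]
    · apply hbad
      rw [hn, h, add_sub_cancel_left]
      push_cast
      rw [neg_one_mul, Complex.exp_neg, Complex.exp_pi_mul_I]
      norm_num

end Pool.Agent.H978R3.SL
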