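import Pool.Agent.H978R3.SL.FLevel

set_option autoImplicit false

open Set Filter Topology Metric Bornology

namespace Pool.Agent.H978R3.SL

theorem chain {f : ℂ → ℂ} (hf : MF f) {α β : ℂ} (hβ0 : β ≠ 0) (hα : HF f α) (hβ : HF f β)
    (hCon : Con α β)
    (hE : ∀ δ > 0, ∀ R : ℝ, ∃ z, R ≤ ‖z‖ ∧ AnalyticAt ℂ f z ∧ ‖f z - β‖ ≤ δ) :
    ∀ ε > 0, ∃ c : ℕ → ℂ,
      ((∀ j, ‖c (j + 1) - c j - 2 * (Real.pi : ℂ) * Complex.I‖ ≤ 0.03) ∨
      (∀ j, ‖c (j + 1) - c j + 2 * (Real.pi : ℂ) * Complex.I‖ ≤ 0.03)) ∧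
      ∀ j, ∀ ζ : ℂ, ‖ζ‖ ≤ 8 → AnalyticAt ℂ f (c j + ζ) ∧
        ‖f (c j + ζ)‖ ≤ 2 * ‖β‖ * Real.exp 8 + 1 ∧
        ‖deriv f (c j + ζ) - f (c j + ζ)‖ < ε := by
  intro ε hε
  have hβp : 0 < ‖β‖ := norm_pos_iff.2 hβ0
  obtain ⟨δ1, hδ1, hF3⟩ := F3 hf hβ0 hα hβ hCon 8
  set δ2 : ℝ := min δ1 (‖β‖ / 100) with hδ2
  have hδ2p : 0 < δ2 := lt_min hδ1 (by positivity)
  set ε' : ℝ := min δ2 (min (ε / 2) 1) with hε'
  have hε'p : 0 < ε' := lt_min hδ2p (lt_min (by positivity) one_pos)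
  have l1 : ε' ≤ δ2 := min_le_left _ _
  have l2 : ε' ≤ ε / 2 := (min_le_right _ _).trans (min_le_left _ _)
  have l3 : ε' ≤ 1 := (min_le_right _ _).trans (min_le_right _ _)
  have l4 : δ2 ≤ δ1 := min_le_left _ _
  have l5 : δ2 ≤ ‖β‖ / 100 := min_le_right _ _
  obtain ⟨R, hR⟩ := hF3 ε' hε'p
  obtain ⟨z0, hz0R, hz0A, hz0⟩ := hE δ2 hδ2p (2 * R)
  obtain ⟨σ, hσ, hσ0⟩ : ∃ σ : ℝ, (σ = 1 ∨ σ = -1) ∧ |z0.im| = σ * z0.im := by
    rcases le_total 0 z0.im with h | h
    · exact ⟨1, Or.inl rfl, by rw [abs_of_nonneg h, one_mul]⟩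
    · exact ⟨-1, Or.inr rfl, by rw [abs_of_nonpos h]; ring⟩
  have hσσ : σ * σ = 1 := by rcases hσ with h | h <;> rw [h] <;> norm_num
  have hσa : |σ| = 1 := by rcases hσ with h | h <;> rw [h] <;> norm_num
  set st : ℂ → ℂ := fun z => (σ : ℂ) * (2 * (Real.pi : ℂ) * Complex.I) + Complex.log (β / f z)
    with hst
  set Inv : ℂ → Prop := fun z => AnalyticAt ℂ f z ∧ ‖f z - β‖ ≤ δ2 ∧
    |z.re - z0.re| ≤ σ * (z.im - z0.im) with hInv
  have hRz : ∀ z, Inv z → R ≤ ‖z‖ := by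
    rintro z ⟨-, -, h3⟩
    have a1 : ‖z0‖ ≤ |z0.re| + |z0.im| := Complex.norm_le_abs_re_add_abs_im z0
    have a2 : |z0.re| ≤ |z.re| + |z.re - z0.re| := by
      calc |z0.re| = |z.re - (z.re - z0.re)| := by congr 1; ring
        _ ≤ _ := abs_sub _ _
    have a3 : σ * z.im ≤ |z.im| := by
      calc σ * z.im ≤ |σ * z.im| := le_abs_self _
        _ = |z.im| := by rw [abs_mul, hσa, one_mul]
    have a4 := Complex.abs_re_le_norm z
    have a5 := Complex.abs_im_le_norm z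
    nlinarith
  have hlog : ∀ z, ‖f z - β‖ ≤ δ2 → f z ≠ 0 ∧ ‖Complex.log (β / f z)‖ ≤ 0.03 := by
    intro z hz
    have b1 : ‖β‖ ≤ ‖f z‖ + ‖f z - β‖ := by
      calc ‖β‖ = ‖f z - (f z - β)‖ := by congr 1; ring
        _ ≤ _ := norm_sub_le _ _
    have b2 : 99 / 100 * ‖β‖ ≤ ‖f z‖ := by linarith
    have hne : f z ≠ 0 := by
      intro h
      rw [h, norm_zero] at b2
      linarith
    refine ⟨hne, ?_⟩
    have b3 : β / f z = 1 + (β - f z) / f z := by field_simp; ring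
    have b4 : ‖(β - f z) / f z‖ ≤ 1 / 99 := by
      rw [norm_div, norm_sub_rev, div_le_iff₀ (norm_pos_iff.2 hne)]
      linarith
    rw [b3]
    have := Complex.norm_log_one_add_half_le_self (z := (β - f z) / f z) (by linarith)
    calc _ ≤ (3 / 2) * ‖(β - f z) / f z‖ := this
      _ ≤ (3 / 2) * (1 / 99) := by gcongr
      _ ≤ 0.03 := by norm_num
  have hπ1 := Real.pi_gt_three
  have hπ2 := Real.pi_lt_d2
  have hn2π : ‖(σ : ℂ) * (2 * (Real.pi : ℂ) * Complex.I)‖ = 2 * Real.pi := by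
    rw [norm_mul, Complex.norm_real, Real.norm_eq_abs, hσa, one_mul, norm_mul, norm_mul,
      Complex.norm_I, mul_one, Complex.norm_real, Real.norm_eq_abs, abs_of_pos Real.pi_pos]
    norm_num
  have hstep : ∀ z, Inv z → Inv (z + st z) := by
    intro z hz
    have hzR := hRz z hz
    obtain ⟨h1, h2, h3⟩ := hz
    obtain ⟨hne, hl⟩ := hlog z h2
    have hn8 : ‖st z‖ ≤ 8 := by
      calc ‖st z‖ ≤ ‖(σ : ℂ) * (2 * (Real.pi : ℂ) * Complex.I)‖ + ‖Complex.log (β / f z)‖ :=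
            norm_add_le _ _
        _ ≤ 2 * Real.pi + 0.03 := by rw [hn2π]; linarith
        _ ≤ 8 := by linarith
    obtain ⟨c1, c2, -⟩ := hR z hzR h1 (h2.trans l4) (st z) hn8
    have hexp : f z * Complex.exp (st z) = β := by
      rw [hst]
      simp only
      rw [Complex.exp_add, Complex.exp_log (div_ne_zero hβ0 hne)]
      have : Complex.exp ((σ : ℂ) * (2 * (Real.pi : ℂ) * Complex.I)) = 1 := by
        rcases hσ with h | h
        · rw [h, Complex.ofReal_one, one_mul, Complex.exp_two_pi_mul_I]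
        · rw [h, Complex.ofReal_neg, Complex.ofReal_one, neg_one_mul, Complex.exp_neg,
            Complex.exp_two_pi_mul_I, inv_one]
      rw [this, one_mul]
      field_simp
    rw [hexp] at c2
    refine ⟨c1, c2.le.trans l1, ?_⟩
    have d1 : (z + st z).re = z.re + (Complex.log (β / f z)).re := by
      simp [hst]
    have d2 : (z + st z).im = z.im + (σ * (2 * Real.pi) + (Complex.log (β / f z)).im) := by
      simp [hst]
    rw [d1, d2]
    have e1 := Complex.abs_re_le_norm (Complex.log (β / f z))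
    have e2 := Complex.abs_im_le_norm (Complex.log (β / f z))
    have e3 : -(0.03) ≤ σ * (Complex.log (β / f z)).im := by
      have : |σ * (Complex.log (β / f z)).im| ≤ 0.03 := by
        rw [abs_mul, hσa, one_mul]; exact e2.trans hl
      exact (abs_le.1 this).1
    calc |z.re + (Complex.log (β / f z)).re - z0.re|
        = |(z.re - z0.re) + (Complex.log (β / f z)).re| := by congr 1; ring
      _ ≤ |z.re - z0.re| + |(Complex.log (β / f z)).re| := abs_add_le _ _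
      _ ≤ σ * (z.im - z0.im) + 0.03 := add_le_add h3 (e1.trans hl)
      _ ≤ σ * (z.im - z0.im) + σ * σ * (2 * Real.pi) + σ * (Complex.log (β / f z)).im := by
          rw [hσσ]; linarith
      _ = _ := by ring
  set c : ℕ → ℂ := fun j => (fun z => z + st z)^[j] z0 with hc
  have hcs : ∀ j, c (j + 1) = c j + st (c j) := by
    intro j
    simp only [hc, Function.iterate_succ_apply']
  have hcI : ∀ j, Inv (c j) := by
    intro j
    induction j with
    | zero => exact ⟨hz0A, hz0, by simp [hc]⟩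
    | succ j ih => rw [hcs]; exact hstep _ ih
  refine ⟨c, ?_, ?_⟩
  · rcases hσ with h | h
    · left
      intro j
      have h1 : c (j + 1) - c j - 2 * (Real.pi : ℂ) * Complex.I = Complex.log (β / f (c j)) := by
        rw [hcs]; simp only [hst, h]; push_cast; ring
      rw [h1]
      exact (hlog _ (hcI j).2.1).2
    · right
      intro j
      have h1 : c (j + 1) - c j + 2 * (Real.pi : ℂ) * Complex.I = Complex.log (β / f (c j)) := by
        rw [hcs]; simp only [hst, h]; push_cast; ring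
      rw [h1]
      exact (hlog _ (hcI j).2.1).2
  · intro j ζ hζ
    obtain ⟨c1, c2, c3⟩ := hR (c j) (hRz _ (hcI j)) (hcI j).1 ((hcI j).2.1.trans l4) ζ hζ
    refine ⟨c1, ?_, ?_⟩
    · have g1 : ‖f (c j)‖ ≤ 2 * ‖β‖ := by
        calc ‖f (c j)‖ = ‖(f (c j) - β) + β‖ := by congr 1; ring
          _ ≤ ‖f (c j) - β‖ + ‖β‖ := norm_add_le _ _
          _ ≤ 2 * ‖β‖ := by linarith [(hcI j).2.1]
      have g2 : ‖Complex.exp ζ‖ ≤ Real.exp 8 := by
        rw [Complex.norm_exp]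
        apply Real.exp_le_exp.2
        exact (Complex.re_le_norm ζ).trans hζ
      calc ‖f (c j + ζ)‖ = ‖f (c j) * Complex.exp ζ + (f (c j + ζ) - f (c j) * Complex.exp ζ)‖ := by
            congr 1; ring
        _ ≤ ‖f (c j) * Complex.exp ζ‖ + ‖f (c j + ζ) - f (c j) * Complex.exp ζ‖ := norm_add_le _ _
        _ ≤ 2 * ‖β‖ * Real.exp 8 + 1 := by
            apply add_le_add _ (c2.le.trans l3)
            rw [norm_mul]
            exact mul_le_mul g1 g2 (norm_nonneg _) (by positivity)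
    · calc ‖deriv f (c j + ζ) - f (c j + ζ)‖ = ‖(deriv f (c j + ζ) - f (c j) * Complex.exp ζ) -
            (f (c j + ζ) - f (c j) * Complex.exp ζ)‖ := by congr 1; ring
        _ ≤ ‖deriv f (c j + ζ) - f (c j) * Complex.exp ζ‖ + ‖f (c j + ζ) - f (c j) * Complex.exp ζ‖ :=
            norm_sub_le _ _
        _ < ε := by linarith

end Pool.Agent.H978R3.SL
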