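import Pool.Agent.H978R3.SL.Limit

set_option autoImplicit false

open Set Filter Topology Metric Bornology

namespace Pool.Agent.H978R3.SL

theorem noPole {G : ℂ → ℂ} (hG : MF G) {κ : ℂ}
    (h : ∀ ζ, AnalyticAt ℂ G ζ → deriv G ζ = κ * G ζ) : ∀ ζ, AnalyticAt ℂ G ζ := by
  intro p
  rcases hG p with hA | hP
  · exact hA
  · exfalso
    have hqa : AnalyticAt ℂ (qf G 0) p :=
      qf_analyticAt hG (fun hA => absurd hA hP.not_analyticAt)
    have hq0 : qf G 0 p = 0 := by simp [qf, hP.not_analyticAt]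
    have ev1 : ∀ᶠ w in 𝓝[≠] p, AnalyticAt ℂ G w := hP.1.eventually_analyticAt
    have ev2 : ∀ᶠ w in 𝓝[≠] p, 1 < ‖G w‖ :=
      (tendsto_norm_cobounded_atTop.comp hP.2).eventually_gt_atTop 1
    have ev3 : ∀ᶠ w in 𝓝 p, AnalyticAt ℂ (qf G 0) w := hqa.eventually_analyticAt
    rw [eventually_nhdsWithin_iff] at ev1 ev2
    obtain ⟨r, hr, hb⟩ := Metric.eventually_nhds_iff_ball.1 ((ev1.and ev2).and ev3)
    set H : ℂ → ℂ := fun ζ => qf G 0 ζ * Complex.exp (κ * ζ) with hH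
    have hHa : ∀ w ∈ ball p r, AnalyticAt ℂ H w := by
      intro w hw
      exact (hb w hw).2.mul (by fun_prop)
    have hd0 : ∀ w ∈ ball p r, w ≠ p → deriv H w = 0 := by
      intro w hw hwp
      obtain ⟨⟨h1, h2⟩, h3⟩ := hb w hw
      have hGa := h1 hwp
      have hG1 := h2 hwp
      have hG0 : G w ≠ 0 := by
        intro h0; rw [h0, norm_zero] at hG1; linarith
      have hq1 : HasDerivAt (qf G 0) (- deriv G w / (G w - 0) ^ 2) w := by
        rw [← qf_hasDerivAt hGa hG0]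
        exact h3.differentiableAt.hasDerivAt
      have hq2 : HasDerivAt (fun ζ : ℂ => Complex.exp (κ * ζ)) (Complex.exp (κ * w) * κ) w := by
        have := ((hasDerivAt_id w).const_mul κ).cexp
        simpa using this
      have h4 := (hq1.mul hq2).deriv
      have hqw : qf G 0 w = (G w)⁻¹ := by simp [qf, hGa]
      rw [show H = (qf G 0 * fun ζ : ℂ => Complex.exp (κ * ζ)) from rfl, h4, hqw, h w hGa, sub_zero]
      field_simp
      ring
    have hd : ∀ w ∈ ball p r, deriv H w = 0 := by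
      intro w hw
      by_cases hwp : w = p
      · subst hwp
        have hc : ContinuousAt (deriv H) w := (hHa w hw).deriv.continuousAt
        have h1 : Tendsto (deriv H) (𝓝[≠] w) (𝓝 (deriv H w)) :=
          hc.tendsto.mono_left nhdsWithin_le_nhds
        have h2 : Tendsto (deriv H) (𝓝[≠] w) (𝓝 0) := by
          apply tendsto_const_nhds.congr'
          filter_upwards [mem_nhdsWithin_of_mem_nhds (ball_mem_nhds w hr), self_mem_nhdsWithin]
            with x hx1 hx2 using (hd0 x hx1 hx2).symm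
        exact tendsto_nhds_unique h1 h2
      · exact hd0 w hw hwp
    have hconst : ∀ w ∈ ball p r, H w = H p := by
      intro w hw
      exact isOpen_ball.is_const_of_deriv_eq_zero (convex_ball p r).isPreconnected
        (fun x hx => (hHa x hx).differentiableAt.differentiableWithinAt) 
        (fun x hx => hd x hx) hw (mem_ball_self hr)
    have hHp : H p = 0 := by simp [hH, hq0]
    have hev : ∀ᶠ w in 𝓝[≠] p, w ∈ ball p r ∧ w ≠ p := by
      filter_upwards [mem_nhdsWithin_of_mem_nhds (ball_mem_nhds p hr), self_mem_nhdsWithin]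
        with x hx1 hx2 using ⟨hx1, hx2⟩
    obtain ⟨w, hw1, hw2⟩ := hev.exists
    have h1 := hconst w hw1
    rw [hHp] at h1
    obtain ⟨⟨h3, h4⟩, -⟩ := hb w hw1
    have hGa := h3 hw2
    have hG1 := h4 hw2
    simp only [hH, mul_eq_zero, Complex.exp_ne_zero, or_false] at h1
    simp only [qf, hGa, if_true, sub_zero, inv_eq_zero] at h1
    rw [h1, norm_zero] at hG1
    linarith

theorem exp_of_eq {G : ℂ → ℂ} (hG : MF G) (h : ∀ ζ, AnalyticAt ℂ G ζ → deriv G ζ = G ζ) :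
    (∀ ζ, AnalyticAt ℂ G ζ) ∧ ∀ ζ, G ζ = G 0 * Complex.exp ζ := by
  have hA : ∀ ζ, AnalyticAt ℂ G ζ := noPole hG (κ := 1) (fun ζ hζ => by rw [one_mul]; exact h ζ hζ)
  refine ⟨hA, fun ζ => ?_⟩
  have hd : ∀ ζ, HasDerivAt (fun x => G x * Complex.exp (-x)) 0 ζ := by
    intro ζ
    have h1 : HasDerivAt G (G ζ) ζ := by
      have := (hA ζ).differentiableAt.hasDerivAt
      rwa [h ζ (hA ζ)] at this
    have h2 : HasDerivAt (fun x : ℂ => Complex.exp (-x)) (Complex.exp (-ζ) * (-1)) ζ :=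
      (hasDerivAt_neg ζ).cexp
    have h3 := h1.mul h2
    have e : G ζ * Complex.exp (-ζ) + G ζ * (Complex.exp (-ζ) * (-1)) = 0 := by ring
    rw [e] at h3
    exact h3
  have h3 := is_const_of_deriv_eq_zero (f := fun x => G x * Complex.exp (-x))
    (fun x => (hd x).differentiableAt) (fun x => (hd x).deriv) ζ 0
  simp only [neg_zero, Complex.exp_zero, mul_one] at h3
  rw [← h3, mul_assoc, ← Complex.exp_add]
  simp

/-- an ultrafilter on an unbounded set -/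
theorem exU {B : Set ℂ} (h : ∀ R : ℝ, ∃ z ∈ B, R ≤ ‖z‖) :
    ∃ 𝒰 : Ultrafilter ℂ, (𝒰 : Filter ℂ) ≤ cobounded ℂ ∧ ∀ᶠ z in (𝒰 : Filter ℂ), z ∈ B := by
  have hne : (cobounded ℂ ⊓ 𝓟 B).NeBot := by
    rw [inf_principal_neBot_iff]
    intro U hU
    obtain ⟨R, -, hR⟩ := (hasBasis_cobounded_norm (E := ℂ)).mem_iff.1 hU
    obtain ⟨z, hz1, hz2⟩ := h R
    exact ⟨z, hR hz2, hz1⟩
  refine ⟨Ultrafilter.of (cobounded ℂ ⊓ 𝓟 B), ?_, ?_⟩
  · exact (Ultrafilter.of_le _).trans inf_le_left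
  · have h1 : (Ultrafilter.of (cobounded ℂ ⊓ 𝓟 B) : Filter ℂ) ≤ 𝓟 B :=
      (Ultrafilter.of_le _).trans inf_le_right
    exact h1 (mem_principal_self B)

/-- classification hypothesis for the limit functions -/
def Con (α β : ℂ) : Prop := ∀ G : ℂ → ℂ, MF G → HG G α → HG G β →
  (∀ ζ, AnalyticAt ℂ G ζ → deriv G ζ = G ζ) ∨ (∀ ζ, AnalyticAt ℂ G ζ → deriv G ζ = 0)

theorem F1 {f : ℂ → ℂ} (hf : MF f) {α β : ℂ} (hα : HF f α) (hβ : HF f β) (hCon : Con α β)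
    (C : ℝ) {ε : ℝ} (hε : 0 < ε) : ∃ R : ℝ, ∀ z, R ≤ ‖z‖ → AnalyticAt ℂ f z → ‖f z‖ ≤ C →
      ‖deriv f z - f z‖ < ε ∨ ‖deriv f z‖ < ε := by
  by_contra hcon
  push Not at hcon
  obtain ⟨𝒰, h1, h2⟩ := exU (B := {z | AnalyticAt ℂ f z ∧ ‖f z‖ ≤ C ∧ ε ≤ ‖deriv f z - f z‖ ∧
    ε ≤ ‖deriv f z‖}) (by
      intro R
      obtain ⟨z, hz1, hz2, hz3, hz4⟩ := hcon R
      exact ⟨z, ⟨hz2, hz3, hz4⟩, hz1⟩)
  obtain ⟨G, hG, hG0, hGH, hLU⟩ := limitG hf hβ 𝒰 h1 (C := C) (by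
    filter_upwards [h2] with z hz using ⟨hz.1, hz.2.1⟩)
  have hL0 := hLU 0 hG0
  have t1 : Tendsto (fun z => f z) 𝒰 (𝓝 (G 0)) := by simpa using hL0.tendsto
  have t2 : Tendsto (fun z => deriv f z) 𝒰 (𝓝 (deriv G 0)) := by simpa using hL0.tendsto_deriv
  have e1 : ε ≤ ‖deriv G 0 - G 0‖ := by
    apply ge_of_tendsto (t2.sub t1).norm
    filter_upwards [h2] with z hz using hz.2.2.1
  have e2 : ε ≤ ‖deriv G 0‖ := by
    apply ge_of_tendsto t2.norm
    filter_upwards [h2] with z hz using hz.2.2.2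
  rcases hCon G hG (hGH α hα) (hGH β hβ) with h | h
  · rw [h 0 hG0, sub_self, norm_zero] at e1
    linarith
  · rw [h 0 hG0, norm_zero] at e2
    linarith

theorem LU.tendsto_moving_deriv {f G : ℂ → ℂ} {𝒰 : Ultrafilter ℂ} {ζ : ℂ} (h : LU f G 𝒰 ζ)
    (hG : ContinuousAt (deriv G) ζ) {w : ℂ → ℂ} (hw : Tendsto w 𝒰 (𝓝 ζ)) :
    Tendsto (fun z => deriv f (z + w z)) 𝒰 (𝓝 (deriv G ζ)) := by
  obtain ⟨r, hr, h1, h2⟩ := h
  have h3 := h2.deriv (by
    filter_upwards [h1] with z hz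
    intro x hx
    exact (shift_diff (hz x hx)).differentiableWithinAt) isOpen_ball
  rw [Metric.tendstoLocallyUniformlyOn_iff] at h3
  rw [Metric.tendsto_nhds]
  intro ε hε
  obtain ⟨t, ht, h4⟩ := h3 (ε / 2) (by positivity) ζ (mem_ball_self hr)
  have ht' : t ∈ 𝓝 ζ := by
    rwa [isOpen_ball.nhdsWithin_eq (mem_ball_self hr)] at ht
  have h5 := hw.eventually ht'
  have h6 := (hG.tendsto.comp hw).eventually (ball_mem_nhds _ (half_pos hε))
  filter_upwards [h4, h5, h6] with z hz3 hz4 hz5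
  have h7 := hz3 (w z) hz4
  simp only [Function.comp] at hz5 h7
  rw [deriv_comp_const_add f z (w z)] at h7
  calc dist (deriv f (z + w z)) (deriv G ζ) ≤ dist (deriv f (z + w z)) (deriv G (w z)) +
        dist (deriv G (w z)) (deriv G ζ) := dist_triangle _ _ _
    _ < ε / 2 + ε / 2 := by rw [dist_comm (deriv f _)]; exact add_lt_add h7 hz5
    _ = ε := by ring

/-- near `β`-points `f` looks like an exponential -/
theorem F3 {f : ℂ → ℂ} (hf : MF f) {α β : ℂ} (hβ0 : β ≠ 0) (hα : HF f α) (hβ : HF f β)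
    (hCon : Con α β) (T : ℝ) : ∃ δ1 > 0, ∀ ε > 0, ∃ R : ℝ, ∀ z, R ≤ ‖z‖ → AnalyticAt ℂ f z →
      ‖f z - β‖ ≤ δ1 → ∀ ζ : ℂ, ‖ζ‖ ≤ T → AnalyticAt ℂ f (z + ζ) ∧
      ‖f (z + ζ) - f z * Complex.exp ζ‖ < ε ∧ ‖deriv f (z + ζ) - f z * Complex.exp ζ‖ < ε := by
  have hβp : 0 < ‖β‖ := norm_pos_iff.2 hβ0
  obtain ⟨δ, hδ, R0, hmod⟩ := hβ (‖β‖ / 2) (by positivity)
  refine ⟨δ / 2, by positivity, fun ε hε => ?_⟩
  by_contra hcon
  push Not at hcon
  set bad : ℂ → ℂ → Prop := fun z ζ => ‖ζ‖ ≤ T ∧ (AnalyticAt ℂ f (z + ζ) →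
    ‖f (z + ζ) - f z * Complex.exp ζ‖ < ε → ε ≤ ‖deriv f (z + ζ) - f z * Complex.exp ζ‖) with hbad
  have hw : ∀ z, ∃ ζ, (∃ ζ', bad z ζ') → bad z ζ := by
    intro z
    by_cases h : ∃ ζ', bad z ζ'
    · obtain ⟨ζ', hζ'⟩ := h
      exact ⟨ζ', fun _ => hζ'⟩
    · exact ⟨0, fun h' => absurd h' h⟩
  choose w hw using hw
  obtain ⟨𝒰, h1, h2⟩ := exU (B := {z | R0 ≤ ‖z‖ ∧ AnalyticAt ℂ f z ∧ ‖f z - β‖ ≤ δ / 2 ∧ 
    bad z (w z)}) (by
      intro R
      obtain ⟨z, hz1, hz2, hz3, ζ, hζ, h⟩ := hcon (max R R0)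
      exact ⟨z, ⟨(le_max_right _ _).trans hz1, hz2, hz3, hw z ⟨ζ, hζ, h⟩⟩, 
        (le_max_left _ _).trans hz1⟩)
  obtain ⟨G, hG, hG0, hGH, hLU⟩ := limitG hf hβ 𝒰 h1 (C := δ / 2 + ‖β‖) (by
    filter_upwards [h2] with z hz
    refine ⟨hz.2.1, ?_⟩
    calc ‖f z‖ = ‖(f z - β) + β‖ := by congr 1; ring
      _ ≤ ‖f z - β‖ + ‖β‖ := norm_add_le _ _
      _ ≤ _ := by linarith [hz.2.2.1])
  have hL0 := hLU 0 hG0
  have t1 : Tendsto (fun z => f z) 𝒰 (𝓝 (G 0)) := by simpa using hL0.tendsto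
  have t2 : Tendsto (fun z => deriv f z) 𝒰 (𝓝 (deriv G 0)) := by simpa using hL0.tendsto_deriv
  have e1 : ‖deriv G 0 - β‖ ≤ ‖β‖ / 2 := by
    apply le_of_tendsto (t2.sub_const β).norm
    filter_upwards [h2] with z hz
    exact (hmod z hz.1 hz.2.1).1 (lt_of_le_of_lt hz.2.2.1 (by linarith))
  have hGe : ∀ ζ, AnalyticAt ℂ G ζ → deriv G ζ = G ζ := by
    rcases hCon G hG (hGH α hα) (hGH β hβ) with h | h
    · exact h
    · exfalso
      rw [h 0 hG0, zero_sub, norm_neg] at e1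
      linarith
  obtain ⟨hGA, hGexp⟩ := exp_of_eq hG hGe
  have hmem : ((𝒰.map w : Ultrafilter ℂ) : Filter ℂ) ≤ 𝓟 (closedBall 0 T) := by
    rw [le_principal_iff, Ultrafilter.coe_map, Filter.mem_map]
    filter_upwards [h2] with z hz
    show w z ∈ closedBall 0 T
    rw [mem_closedBall_zero_iff]
    exact hz.2.2.2.1
  obtain ⟨ω, -, hω⟩ := (isCompact_closedBall (0:ℂ) T).ultrafilter_le_nhds _ hmem
  have hωt : Tendsto w 𝒰 (𝓝 ω) := hω
  obtain ⟨m1, m2⟩ := (hLU ω (hGA ω)).tendsto_moving (hGA ω).continuousAt hωt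
  have m3 := (hLU ω (hGA ω)).tendsto_moving_deriv (hGA ω).deriv.continuousAt hωt
  have m4 : Tendsto (fun z => f z * Complex.exp (w z)) 𝒰 (𝓝 (G ω)) := by
    rw [hGexp ω]
    exact t1.mul (Complex.continuous_exp.continuousAt.tendsto.comp hωt)
  rw [hGe ω (hGA ω)] at m3
  have m5 := (m2.sub m4).norm
  have m6 := (m3.sub m4).norm
  rw [sub_self, norm_zero] at m5 m6
  obtain ⟨z, hz1, hz2, hz3, hz4⟩ :=
    (h2.and (m1.and ((m5.eventually_lt_const hε).and (m6.eventually_lt_const hε)))).exists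
  have := hz1.2.2.2.2 hz2 hz3
  linarith

end Pool.Agent.H978R3.SL
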