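import Pool.Agent.H978R3.SL.CaseA2

set_option autoImplicit false

open Set Filter Topology Metric Bornology

namespace Pool.Agent.H978R3.SL

/-- the quantitative form of limit value sharing at infinity -/
def HF (f : ℂ → ℂ) (c : ℂ) : Prop :=
  ∀ ε > 0, ∃ δ > 0, ∃ R : ℝ, ∀ z, R ≤ ‖z‖ → AnalyticAt ℂ f z →
    (‖f z - c‖ < δ → ‖deriv f z - c‖ ≤ ε) ∧ (‖deriv f z - c‖ < δ → ‖f z - c‖ ≤ ε)

/-- the data of convergence near a point -/
def LU (f G : ℂ → ℂ) (𝒰 : Ultrafilter ℂ) (ζ : ℂ) : Prop :=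
  ∃ r > 0, (∀ᶠ z in (𝒰 : Filter ℂ), ∀ ζ' ∈ ball ζ r, AnalyticAt ℂ f (z + ζ')) ∧
    TendstoLocallyUniformlyOn (fun z ζ' => f (z + ζ')) G 𝒰 (ball ζ r)

theorem shift_diff {f : ℂ → ℂ} {z ζ' : ℂ} (h : AnalyticAt ℂ f (z + ζ')) :
    DifferentiableAt ℂ (fun ζ' => f (z + ζ')) ζ' := by
  have h1 : DifferentiableAt ℂ (fun ζ' : ℂ => z + ζ') ζ' := by fun_prop
  exact h.differentiableAt.comp ζ' h1

theorem LU.tendsto {f G : ℂ → ℂ} {𝒰 : Ultrafilter ℂ} {ζ : ℂ} (h : LU f G 𝒰 ζ) :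
    Tendsto (fun z => f (z + ζ)) 𝒰 (𝓝 (G ζ)) := by
  obtain ⟨r, hr, -, h2⟩ := h
  exact h2.tendsto_at (mem_ball_self hr)

theorem LU.analytic {f G : ℂ → ℂ} {𝒰 : Ultrafilter ℂ} {ζ : ℂ} (h : LU f G 𝒰 ζ) :
    ∀ᶠ z in (𝒰 : Filter ℂ), AnalyticAt ℂ f (z + ζ) := by
  obtain ⟨r, hr, h1, -⟩ := h
  filter_upwards [h1] with z hz using hz ζ (mem_ball_self hr)

theorem LU.tendsto_deriv {f G : ℂ → ℂ} {𝒰 : Ultrafilter ℂ} {ζ : ℂ} (h : LU f G 𝒰 ζ) :
    Tendsto (fun z => deriv f (z + ζ)) 𝒰 (𝓝 (deriv G ζ)) := by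
  obtain ⟨r, hr, h1, h2⟩ := h
  have h3 := h2.deriv (by
    filter_upwards [h1] with z hz
    intro x hx
    exact (shift_diff (hz x hx)).differentiableWithinAt) isOpen_ball
  have h4 := h3.tendsto_at (mem_ball_self hr)
  refine h4.congr fun z => ?_
  simp only [Function.comp]
  exact deriv_comp_const_add f z ζ

/-- convergence at moving points -/
theorem LU.tendsto_moving {f G : ℂ → ℂ} {𝒰 : Ultrafilter ℂ} {ζ : ℂ} (h : LU f G 𝒰 ζ)
    (hG : ContinuousAt G ζ) {w : ℂ → ℂ} (hw : Tendsto w 𝒰 (𝓝 ζ)) :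
    (∀ᶠ z in (𝒰 : Filter ℂ), AnalyticAt ℂ f (z + w z)) ∧
    Tendsto (fun z => f (z + w z)) 𝒰 (𝓝 (G ζ)) := by
  obtain ⟨r, hr, h1, h2⟩ := h
  have hwb : ∀ᶠ z in (𝒰 : Filter ℂ), w z ∈ ball ζ r := hw.eventually (ball_mem_nhds _ hr)
  constructor
  · filter_upwards [h1, hwb] with z hz hz2 using hz _ hz2
  · rw [Metric.tendstoLocallyUniformlyOn_iff] at h2
    rw [Metric.tendsto_nhds]
    intro ε hε
    obtain ⟨t, ht, h3⟩ := h2 (ε / 2) (by positivity) ζ (mem_ball_self hr)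
    have ht' : t ∈ 𝓝 ζ := by
      rwa [isOpen_ball.nhdsWithin_eq (mem_ball_self hr)] at ht
    have h4 := hw.eventually ht'
    have h5 := (hG.tendsto.comp hw).eventually (ball_mem_nhds _ (half_pos hε))
    filter_upwards [h3, h4, h5] with z hz3 hz4 hz5
    have h6 := hz3 (w z) hz4
    simp only [Function.comp] at hz5
    calc dist (f (z + w z)) (G ζ) ≤ dist (f (z + w z)) (G (w z)) + dist (G (w z)) (G ζ) :=
          dist_triangle _ _ _
      _ < ε / 2 + ε / 2 := by rw [dist_comm (f _)]; exact add_lt_add h6 hz5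
      _ = ε := by ring

theorem qf_ne_zero {f : ℂ → ℂ} {β z : ℂ} (h : qf f β z ≠ 0) :
    AnalyticAt ℂ f z ∧ f z = β + (qf f β z)⁻¹ := by
  unfold qf at h ⊢
  split_ifs at h ⊢ with hA
  · refine ⟨hA, ?_⟩
    rw [inv_inv]; ring
  · exact absurd rfl h

theorem limitG {f : ℂ → ℂ} (hf : MF f) {β : ℂ} (hβ : HF f β) (𝒰 : Ultrafilter ℂ)
    (h𝒰 : (𝒰 : Filter ℂ) ≤ cobounded ℂ) {C : ℝ}
    (hC : ∀ᶠ z in (𝒰 : Filter ℂ), AnalyticAt ℂ f z ∧ ‖f z‖ ≤ C) :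
    ∃ G : ℂ → ℂ, MF G ∧ AnalyticAt ℂ G 0 ∧ (∀ c, HF f c → HG G c) ∧
      ∀ ζ, AnalyticAt ℂ G ζ → LU f G 𝒰 ζ := by
  classical
  obtain ⟨η, hη, R, hmod⟩ := hβ 1 one_pos
  set K : ℝ := ‖β‖ + 1 with hKdef
  have hK : 0 < K := by positivity
  have hdd : ∀ z, R ≤ ‖z‖ → AnalyticAt ℂ f z → ‖f z - β‖ < η → ‖deriv f z‖ ≤ K := by
    intro z hzR hz hz2
    have h1 := (hmod z hzR hz).1 hz2
    calc ‖deriv f z‖ = ‖(deriv f z - β) + β‖ := by congr 1; ring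
      _ ≤ ‖deriv f z - β‖ + ‖β‖ := norm_add_le _ _
      _ ≤ K := by rw [hKdef]; linarith
  set r : ℝ := η / (4 * K) with hr
  have hrp : 0 < r := by positivity
  have hbig : ∀ ζ : ℂ, ∀ T : ℝ, ∀ᶠ z in (𝒰 : Filter ℂ), T ≤ ‖z + ζ‖ := by
    intro ζ T
    have h1 : ∀ᶠ z in cobounded ℂ, T + ‖ζ‖ ≤ ‖z‖ := 
      tendsto_norm_cobounded_atTop.eventually_ge_atTop _
    filter_upwards [h𝒰 h1] with z hz
    have : ‖z‖ ≤ ‖z + ζ‖ + ‖ζ‖ := by
      calc ‖z‖ = ‖(z + ζ) - ζ‖ := by congr 1; ring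
        _ ≤ _ := norm_sub_le _ _
    linarith
  -- translation of balls
  have htb : ∀ z ζ ζ' : ℂ, ∀ s : ℝ, ζ' ∈ ball ζ s ↔ z + ζ' ∈ ball (z + ζ) s := by
    intro z ζ ζ' s
    rw [mem_ball, mem_ball, dist_add_left]
  -- the two types
  have hT : ∀ ζ : ℂ, (∀ᶠ z in (𝒰 : Filter ℂ), ∀ ζ' ∈ ball ζ r, AnalyticAt ℂ f (z + ζ') ∧
      ‖f (z + ζ') - β‖ < η) ∨ (∀ᶠ z in (𝒰 : Filter ℂ), ∀ ζ' ∈ ball ζ r,
        AnalyticAt ℂ f (z + ζ') → η / 2 ≤ ‖f (z + ζ') - β‖) := by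
    intro ζ
    rw [← Ultrafilter.eventually_or]
    filter_upwards [hbig ζ (R + η / (2 * K) + η / (4 * K))] with z hz
    rcases dich hf hη hK hdd hz with h1 | h1
    · left
      intro ζ' hζ'
      exact h1 _ ((htb z ζ ζ' _).1 hζ')
    · right
      intro ζ' hζ'
      exact h1 _ ((htb z ζ ζ' _).1 hζ')
  -- Montel for both types
  have hM1 : ∀ ζ : ℂ, (∀ᶠ z in (𝒰 : Filter ℂ), ∀ ζ' ∈ ball ζ r, AnalyticAt ℂ f (z + ζ') ∧
      ‖f (z + ζ') - β‖ < η) → ∃ Φ : ℂ → ℂ, DifferentiableOn ℂ Φ (ball ζ r) ∧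
      TendstoLocallyUniformlyOn (fun z ζ' => f (z + ζ')) Φ 𝒰 (ball ζ r) := by
    intro ζ h1
    apply montelU isOpen_ball _ (η + ‖β‖) 𝒰
    filter_upwards [h1] with z hz
    refine ⟨fun x hx => (shift_diff (hz x hx).1).differentiableWithinAt, fun x hx => ?_⟩
    have := (hz x hx).2
    calc ‖f (z + x)‖ = ‖(f (z + x) - β) + β‖ := by congr 1; ring
      _ ≤ ‖f (z + x) - β‖ + ‖β‖ := norm_add_le _ _
      _ ≤ _ := by linarith
  have hM2 : ∀ ζ : ℂ, (∀ᶠ z in (𝒰 : Filter ℂ), ∀ ζ' ∈ ball ζ r,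
        AnalyticAt ℂ f (z + ζ') → η / 2 ≤ ‖f (z + ζ') - β‖) →
      ∃ Φ : ℂ → ℂ, DifferentiableOn ℂ Φ (ball ζ r) ∧
      TendstoLocallyUniformlyOn (fun z ζ' => qf f β (z + ζ')) Φ 𝒰 (ball ζ r) := by
    intro ζ h1
    apply montelU isOpen_ball _ (1 / (η / 2)) 𝒰
    filter_upwards [h1] with z hz
    have hq := qf_ball hf (β := β) (c := η / 2) (by positivity) (W := ball (z + ζ) r) (by
      intro x hx hxa
      have h2 := hz (x - z) ((htb z ζ (x - z) r).2 (by rwa [add_sub_cancel]))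
      rw [add_sub_cancel] at h2
      exact h2 hxa)
    refine ⟨fun x hx => (shift_diff (hq.1 _ ((htb z ζ x r).1 hx))).differentiableWithinAt, 
      fun x hx => hq.2 _ ((htb z ζ x r).1 hx)⟩
  -- finite versus infinite values in type 2
  have hQ0 : ∀ ζ0 : ℂ, (∀ᶠ z in (𝒰 : Filter ℂ), ∀ ζ' ∈ ball ζ0 r,
        AnalyticAt ℂ f (z + ζ') → η / 2 ≤ ‖f (z + ζ') - β‖) → ∀ ζ' ∈ ball ζ0 r,
        (Tendsto (fun z => qf f β (z + ζ')) 𝒰 (𝓝 0) ↔
          ∀ C : ℝ, ∀ᶠ z in (𝒰 : Filter ℂ), AnalyticAt ℂ f (z + ζ') → C ≤ ‖f (z + ζ')‖) := by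
    intro ζ0 h1 ζ' hζ'
    constructor
    · intro h2 C
      have h3 : ∀ᶠ z in (𝒰 : Filter ℂ), ‖qf f β (z + ζ')‖ < 1 / (|C| + ‖β‖ + 1) := by
        have := h2.norm
        rw [norm_zero] at this
        exact this.eventually_lt_const (by positivity)
      filter_upwards [h1, h3] with z hz1 hz3 hA
      have h5 := hz1 ζ' hζ' hA
      have h6 : ‖qf f β (z + ζ')‖ = 1 / ‖f (z + ζ') - β‖ := by simp [qf, hA]
      rw [h6] at hz3
      have h7 : 0 < ‖f (z + ζ') - β‖ := lt_of_lt_of_le (by positivity) h5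
      have h8 : |C| + ‖β‖ + 1 < ‖f (z + ζ') - β‖ := 
        lt_of_one_div_lt_one_div h7 hz3
      have h9 : ‖f (z + ζ') - β‖ ≤ ‖f (z + ζ')‖ + ‖β‖ := norm_sub_le _ _
      have := le_abs_self C
      linarith
    · intro h2
      rw [Metric.tendsto_nhds]
      intro ε hε
      filter_upwards [h2 (1 / ε + ‖β‖ + 1)] with z hz
      rw [dist_zero_right]
      unfold qf
      split_ifs with hA
      · have h3 := hz hA
        have h4 : 1 / ε < ‖f (z + ζ') - β‖ := by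
          have : ‖f (z + ζ')‖ - ‖β‖ ≤ ‖f (z + ζ') - β‖ := norm_sub_norm_le _ _
          linarith
        rw [norm_inv]
        rw [one_div] at h4
        exact inv_lt_of_inv_lt₀ hε h4
      · simpa using hε
  -- degenerate set
  set D : Set ℂ := {ζ | ∀ᶠ ζ' in 𝓝 ζ, ∀ C : ℝ, ∀ᶠ z in (𝒰 : Filter ℂ),
    AnalyticAt ℂ f (z + ζ') → C ≤ ‖f (z + ζ')‖} with hD
  have hDo : IsOpen D := by
    rw [isOpen_iff_mem_nhds]
    intro ζ hζ
    exact eventually_eventually_nhds.2 hζ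
  have hD2 : ∀ ζ0 : ℂ, ∀ Φ : ℂ → ℂ, (∀ᶠ z in (𝒰 : Filter ℂ), ∀ ζ' ∈ ball ζ0 r,
        AnalyticAt ℂ f (z + ζ') → η / 2 ≤ ‖f (z + ζ') - β‖) →
      DifferentiableOn ℂ Φ (ball ζ0 r) →
      TendstoLocallyUniformlyOn (fun z ζ' => qf f β (z + ζ')) Φ 𝒰 (ball ζ0 r) →
      ∀ ζ1 ∈ ball ζ0 r, (∀ᶠ ζ' in 𝓝 ζ1, Φ ζ' = 0) → ζ0 ∈ D := by
    intro ζ0 Φ h1 hΦ1 hΦ2 ζ1 hζ1b hζ1
    have hΦ0 : EqOn Φ 0 (ball ζ0 r) := by
      have han : AnalyticOnNhd ℂ Φ (ball ζ0 r) := hΦ1.analyticOnNhd isOpen_ball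
      exact han.eqOn_zero_of_preconnected_of_eventuallyEq_zero
        (convex_ball _ _).isPreconnected hζ1b hζ1
    show ∀ᶠ ζ' in 𝓝 ζ0, _
    filter_upwards [ball_mem_nhds ζ0 hrp] with ζ' hζ'
    have := hΦ2.tendsto_at hζ'
    rw [hΦ0 hζ'] at this
    exact (hQ0 ζ0 h1 ζ' hζ').1 this
  have hDc : IsClosed D := by
    rw [← closure_subset_iff_isClosed]
    intro ζ0 hζ0
    have hne : (ball ζ0 r ∩ D).Nonempty := mem_closure_iff.1 hζ0 _ isOpen_ball (mem_ball_self hrp)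
    obtain ⟨ζ1, hζ1b, hζ1D⟩ := hne
    rcases hT ζ0 with h1 | h1
    · exfalso
      have h2 := (hζ1D : ∀ᶠ ζ' in 𝓝 ζ1, _).self_of_nhds (η + ‖β‖)
      obtain ⟨z, hz1, hz2⟩ := (h1.and h2).exists
      have h3 := hz1 ζ1 hζ1b
      have h4 := hz2 h3.1
      have : ‖f (z + ζ1)‖ ≤ ‖f (z + ζ1) - β‖ + ‖β‖ := by
        calc ‖f (z + ζ1)‖ = ‖(f (z + ζ1) - β) + β‖ := by congr 1; ring
          _ ≤ _ := norm_add_le _ _
      linarith [h3.2]
    · obtain ⟨Φ, hΦ1, hΦ2⟩ := hM2 ζ0 h1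
      apply hD2 ζ0 Φ h1 hΦ1 hΦ2 ζ1 hζ1b
      have hb : ∀ᶠ ζ' in 𝓝 ζ1, ζ' ∈ ball ζ0 r := isOpen_ball.mem_nhds hζ1b
      filter_upwards [hb, hζ1D] with ζ' h2 h3
      exact tendsto_nhds_unique (hΦ2.tendsto_at h2) ((hQ0 ζ0 h1 ζ' h2).2 h3)
  have hDe : D = ∅ := by
    rcases isClopen_iff.1 ⟨hDc, hDo⟩ with h | h
    · exact h
    · exfalso
      have h0 : (0 : ℂ) ∈ D := by rw [h]; trivial
      have h2 := (h0 : ∀ᶠ ζ' in 𝓝 (0:ℂ), _).self_of_nhds (C + 1)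
      obtain ⟨z, hz1, hz2⟩ := (hC.and h2).exists
      rw [add_zero] at hz2
      have := hz2 hz1.1
      linarith [hz1.2]
  -- the limit function
  set G : ℂ → ℂ := fun ζ => if h : ∃ v, (∀ᶠ z in (𝒰 : Filter ℂ), AnalyticAt ℂ f (z + ζ)) ∧
    Tendsto (fun z => f (z + ζ)) 𝒰 (𝓝 v) then h.choose else 0 with hG
  have hGv : ∀ ζ v, (∀ᶠ z in (𝒰 : Filter ℂ), AnalyticAt ℂ f (z + ζ)) →
      Tendsto (fun z => f (z + ζ)) 𝒰 (𝓝 v) → G ζ = v := by
    intro ζ v h1 h2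
    have hex : ∃ v, (∀ᶠ z in (𝒰 : Filter ℂ), AnalyticAt ℂ f (z + ζ)) ∧
      Tendsto (fun z => f (z + ζ)) 𝒰 (𝓝 v) := ⟨v, h1, h2⟩
    simp only [hG, dif_pos hex]
    exact tendsto_nhds_unique hex.choose_spec.2 h2
  have hL1 : ∀ (ζ0 : ℂ) (s : ℝ) (Φ : ℂ → ℂ), 0 < s → DifferentiableOn ℂ Φ (ball ζ0 s) →
      (∀ᶠ z in (𝒰 : Filter ℂ), ∀ ζ' ∈ ball ζ0 s, AnalyticAt ℂ f (z + ζ')) →
      TendstoLocallyUniformlyOn (fun z ζ' => f (z + ζ')) Φ 𝒰 (ball ζ0 s) →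
      AnalyticAt ℂ G ζ0 ∧ LU f G 𝒰 ζ0 := by
    intro ζ0 s Φ hs h1 h2 h3
    have heq : ∀ ζ ∈ ball ζ0 s, G ζ = Φ ζ := by
      intro ζ hζ
      apply hGv ζ (Φ ζ) _ (h3.tendsto_at hζ)
      filter_upwards [h2] with z hz using hz ζ hζ
    constructor
    · have h4 : AnalyticAt ℂ Φ ζ0 := h1.analyticAt (ball_mem_nhds _ hs)
      apply h4.congr
      filter_upwards [ball_mem_nhds ζ0 hs] with ζ hζ using (heq ζ hζ).symm
    · refine ⟨s, hs, h2, ?_⟩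
      exact h3.congr_right (fun ζ hζ => (heq ζ hζ).symm)
  have hmain : ∀ ζ0, (AnalyticAt ℂ G ζ0 ∧ LU f G 𝒰 ζ0) ∨ (Pole G ζ0 ∧
      ∀ C : ℝ, ∀ᶠ z in (𝒰 : Filter ℂ), AnalyticAt ℂ f (z + ζ0) → C ≤ ‖f (z + ζ0)‖) := by
    intro ζ0
    rcases hT ζ0 with h1 | h1
    · left
      obtain ⟨Φ, hΦ1, hΦ2⟩ := hM1 ζ0 h1
      apply hL1 ζ0 r Φ hrp hΦ1 _ hΦ2
      filter_upwards [h1] with z hz ζ' hζ' using (hz ζ' hζ').1
    · obtain ⟨Φ, hΦ1, hΦ2⟩ := hM2 ζ0 h1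
      have hΦa : AnalyticAt ℂ Φ ζ0 := hΦ1.analyticAt (ball_mem_nhds _ hrp)
      by_cases hz0 : Φ ζ0 = 0
      · right
        refine ⟨?_, (hQ0 ζ0 h1 ζ0 (mem_ball_self hrp)).1 (by
          have := hΦ2.tendsto_at (mem_ball_self hrp); rwa [hz0] at this)⟩
        have hne : ∀ᶠ ζ in 𝓝[≠] ζ0, Φ ζ ≠ 0 := by
          rcases hΦa.eventually_eq_zero_or_eventually_ne_zero with h2 | h2
          · exfalso
            have := hD2 ζ0 Φ h1 hΦ1 hΦ2 ζ0 (mem_ball_self hrp) h2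
            rw [hDe] at this
            exact this
          · exact h2
        have heq : G =ᶠ[𝓝[≠] ζ0] fun ζ => β + (Φ ζ)⁻¹ := by
          have hb : ∀ᶠ ζ in 𝓝[≠] ζ0, ζ ∈ ball ζ0 r :=
            mem_nhdsWithin_of_mem_nhds (ball_mem_nhds _ hrp)
          filter_upwards [hne, hb] with ζ h2 h3
          have h4 := hΦ2.tendsto_at h3
          have h5 : ∀ᶠ z in (𝒰 : Filter ℂ), qf f β (z + ζ) ≠ 0 := h4.eventually_ne h2
          apply hGv
          · filter_upwards [h5] with z hz using (qf_ne_zero hz).1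
          · have h6 : Tendsto (fun z => β + (qf f β (z + ζ))⁻¹) 𝒰 (𝓝 (β + (Φ ζ)⁻¹)) :=
              (h4.inv₀ h2).const_add β
            apply h6.congr'
            filter_upwards [h5] with z hz using (qf_ne_zero hz).2.symm
        constructor
        · exact ((MeromorphicAt.const β ζ0).add hΦa.meromorphicAt.inv).congr heq.symm
        · apply Tendsto.congr' heq.symm
          have h2 : Tendsto Φ (𝓝[≠] ζ0) (𝓝[≠] 0) := by
            apply tendsto_nhdsWithin_of_tendsto_nhds_of_eventually_within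
            · have := hΦa.continuousAt.tendsto.mono_left (nhdsWithin_le_nhds (s := {ζ0}ᶜ))
              rwa [hz0] at this
            · filter_upwards [hne] with ζ h3 using h3
          have h3 := tendsto_inv₀_nhdsNE_zero.comp h2
          rw [← tendsto_norm_atTop_iff_cobounded] at h3 ⊢
          apply tendsto_atTop_mono (f := fun ζ => ‖(Φ ζ)⁻¹‖ - ‖β‖)
          · intro ζ
            have : ‖(Φ ζ)⁻¹‖ ≤ ‖β + (Φ ζ)⁻¹‖ + ‖β‖ := by
              calc ‖(Φ ζ)⁻¹‖ = ‖(β + (Φ ζ)⁻¹) - β‖ := by congr 1; ring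
                _ ≤ _ := norm_sub_le _ _
            linarith
          · exact tendsto_atTop_add_const_right _ _ h3
      · left
        set c : ℝ := ‖Φ ζ0‖ / 2 with hc
        have hcp : 0 < c := by positivity
        have hev : ∀ᶠ ζ in 𝓝 ζ0, c < ‖Φ ζ‖ :=
          (hΦa.continuousAt.norm).eventually_const_lt (by rw [hc]; linarith [norm_pos_iff.2 hz0])
        obtain ⟨s0, hs0, hs0b⟩ := Metric.eventually_nhds_iff_ball.1 hev
        set s : ℝ := min s0 r / 2 with hs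
        have hsp : 0 < s := by positivity
        have hss0 : s < s0 := by
          have := min_le_left s0 r
          have := lt_min hs0 hrp
          rw [hs]; linarith
        have hsr : s < r := by
          have := min_le_right s0 r
          have := lt_min hs0 hrp
          rw [hs]; linarith
        have hU := (tendstoLocallyUniformlyOn_iff_forall_isCompact isOpen_ball).1 hΦ2
          (closedBall ζ0 s) (closedBall_subset_ball hsr) (isCompact_closedBall _ _)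
        rw [Metric.tendstoUniformlyOn_iff] at hU
        have hU2 := hU (c / 2) (by positivity)
        have hlow : ∀ᶠ z in (𝒰 : Filter ℂ), ∀ ζ' ∈ ball ζ0 s, c / 2 ≤ ‖qf f β (z + ζ')‖ := by
          filter_upwards [hU2] with z hz ζ' hζ'
          have h2 := hz ζ' (ball_subset_closedBall hζ')
          have h3 := hs0b ζ' (ball_subset_ball hss0.le hζ')
          rw [dist_eq_norm] at h2
          have h4 : ‖Φ ζ'‖ ≤ ‖qf f β (z + ζ')‖ + ‖Φ ζ' - qf f β (z + ζ')‖ := by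
            calc ‖Φ ζ'‖ = ‖qf f β (z + ζ') + (Φ ζ' - qf f β (z + ζ'))‖ := by congr 1; ring
              _ ≤ _ := norm_add_le _ _
          linarith
        have hana : ∀ᶠ z in (𝒰 : Filter ℂ), ∀ ζ' ∈ ball ζ0 s, AnalyticAt ℂ f (z + ζ') ∧
            ‖f (z + ζ')‖ ≤ ‖β‖ + 1 / (c / 2) := by
          filter_upwards [hlow] with z hz ζ' hζ'
          have h2 := hz ζ' hζ'
          have h3 : qf f β (z + ζ') ≠ 0 := by
            intro h0
            rw [h0, norm_zero] at h2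
            linarith
          obtain ⟨h4, h5⟩ := qf_ne_zero h3
          refine ⟨h4, ?_⟩
          rw [h5]
          refine (norm_add_le _ _).trans ?_
          rw [norm_inv, ← one_div]
          gcongr
        obtain ⟨Ψ, hΨ1, hΨ2⟩ := montelU (W := ball ζ0 s) isOpen_ball (fun z ζ' => f (z + ζ'))
          (‖β‖ + 1 / (c / 2)) 𝒰 (by
            filter_upwards [hana] with z hz
            exact ⟨fun x hx => (shift_diff (hz x hx).1).differentiableWithinAt,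
              fun x hx => (hz x hx).2⟩)
        apply hL1 ζ0 s Ψ hsp hΨ1 _ hΨ2
        filter_upwards [hana] with z hz ζ' hζ' using (hz ζ' hζ').1
  have hLU : ∀ ζ, AnalyticAt ℂ G ζ → LU f G 𝒰 ζ := by
    intro ζ hζ
    rcases hmain ζ with h1 | h1
    · exact h1.2
    · exact absurd hζ h1.1.not_analyticAt
  refine ⟨G, ?_, ?_, ?_, hLU⟩
  · intro ζ
    rcases hmain ζ with h1 | h1
    · exact Or.inl h1.1
    · exact Or.inr h1.1
  · rcases hmain 0 with h1 | h1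
    · exact h1.1
    · exfalso
      obtain ⟨z, hz1, hz2⟩ := (hC.and (h1.2 (C + 1))).exists
      rw [add_zero] at hz2
      have := hz2 hz1.1
      linarith [hz1.2]
  · intro c hc ε hε
    obtain ⟨δ, hδ, R', hR'⟩ := hc ε hε
    refine ⟨δ, hδ, fun ζ hζ => ?_⟩
    have hl := hLU ζ hζ
    have hn1 : Tendsto (fun z => ‖f (z + ζ) - c‖) 𝒰 (𝓝 ‖G ζ - c‖) :=
      (hl.tendsto.sub_const c).norm
    have hn2 : Tendsto (fun z => ‖deriv f (z + ζ) - c‖) 𝒰 (𝓝 ‖deriv G ζ - c‖) :=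
      (hl.tendsto_deriv.sub_const c).norm
    constructor
    · intro h1
      apply le_of_tendsto hn2
      filter_upwards [hn1.eventually_lt_const h1, hl.analytic, hbig ζ R'] with z h2 h3 h4
      exact (hR' _ h4 h3).1 h2
    · intro h1
      apply le_of_tendsto hn1
      filter_upwards [hn2.eventually_lt_const h1, hl.analytic, hbig ζ R'] with z h2 h3 h4
      exact (hR' _ h4 h3).2 h2

end Pool.Agent.H978R3.SL
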