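import Pool.Agent.H978R3.SL.App2
import Pool.Agent.H978R3.SL.CaseB
import Pool.Agent.H594.SLPL2
import Pool.Agent.H401R3.SLPL1
import Pool.Agent.H564R3.SL.F6

set_option autoImplicit false

open Set Filter Topology Metric Bornology

namespace Pool.Agent.H978R3.SL

theorem app1_zero {f : ℂ → ℂ} (hf : MF f) {β : ℂ} (h0 : HF f 0) (hβ : HF f β) (hCon : Con 0 β)
    (C : ℝ) {ε : ℝ} (hε : 0 < ε) : ∃ R : ℝ, ∀ z, R ≤ ‖z‖ → AnalyticAt ℂ f z → ‖f z‖ ≤ C →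
      ‖deriv f z - f z‖ < ε := by
  obtain ⟨δ, hδ, R0, h1⟩ := h0 (ε / 2) (by positivity)
  obtain ⟨R1, hR1⟩ := F1 hf h0 hβ hCon C (ε := min (ε / 2) δ) (lt_min (by positivity) hδ)
  refine ⟨max R0 R1, fun z hz hA hC => ?_⟩
  rcases hR1 z ((le_max_right _ _).trans hz) hA hC with h | h
  · have := min_le_left (ε / 2) δ
    linarith
  · have h2 := lt_of_lt_of_le h (min_le_right _ _)
    have h3 := lt_of_lt_of_le h (min_le_left _ _)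
    have h4 := (h1 z ((le_max_left _ _).trans hz) hA).2 (by rwa [sub_zero])
    rw [sub_zero] at h4
    have : ‖deriv f z - f z‖ ≤ ‖deriv f z‖ + ‖f z‖ := norm_sub_le _ _
    linarith

theorem main0 {f : ℂ → ℂ} (hf : MF f) {α β : ℂ} (hα : HF f α) (hβ : HF f β) (hβ0 : β ≠ 0)
    (hab : α ≠ β)
    (htr : ¬ ∃ P Q : Polynomial ℂ, Q ≠ 0 ∧ ∀ z, Q.eval z ≠ 0 → f z = P.eval z / Q.eval z) :
    (∀ C : ℝ, ∀ ε > 0, ∃ R : ℝ, ∀ z, R ≤ ‖z‖ → AnalyticAt ℂ f z → ‖f z‖ ≤ C →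
      ‖deriv f z - f z‖ < ε) ∧
    (∀ C : ℝ, ∃ K R : ℝ, ∀ z, R ≤ ‖z‖ → AnalyticAt ℂ f z → ‖deriv f z‖ ≤ C → ‖f z‖ ≤ K) := by
  have hE : ∀ δ > 0, ∀ R : ℝ, ∃ z, R ≤ ‖z‖ ∧ AnalyticAt ℂ f z ∧ ‖f z - β‖ ≤ δ := by
    intro δ hδ R
    by_contra hcon
    push Not at hcon
    exact htr (Pool.Agent.H564R3.SLF6.taskF6 f β hf ⟨R, δ, hδ, fun z hz hA =>
      (hcon z hz hA).le⟩)
  have t1 := Pool.Agent.H401R3.SLPL1.taskPL1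
  have t2 := Pool.Agent.H594.SLPL2.taskPL2
  have key : Con α β ∧ ∀ C : ℝ, ∀ ε > 0, ∃ R : ℝ, ∀ z, R ≤ ‖z‖ → AnalyticAt ℂ f z → ‖f z‖ ≤ C →
      ‖deriv f z - f z‖ < ε := by
    by_cases hα0 : α = 0
    · subst hα0
      have hCon : Con 0 β := fun G hG h1 h2 => caseB hG hβ0 h1 h2
      exact ⟨hCon, fun C ε hε => app1_zero hf hα hβ hCon C hε⟩
    · have hCon : Con α β := fun G hG h1 h2 => caseA hG hα0 hβ0 hab h1 h2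
      exact ⟨hCon, fun C ε hε => app1 t1 t2 hf hα0 hβ0 hα hβ hCon hE C hε⟩
  exact ⟨key.2, fun C => app2 t1 t2 hf hβ0 hα hβ key.1 hE key.2 C⟩

theorem main1 {f : ℂ → ℂ} (hf : MF f) {a b : ℂ} (ha : HF f a) (hb : HF f b) (hab : a ≠ b)
    (htr : ¬ ∃ P Q : Polynomial ℂ, Q ≠ 0 ∧ ∀ z, Q.eval z ≠ 0 → f z = P.eval z / Q.eval z) :
    (∀ C : ℝ, ∀ ε > 0, ∃ R : ℝ, ∀ z, R ≤ ‖z‖ → AnalyticAt ℂ f z → ‖f z‖ ≤ C →
      ‖deriv f z - f z‖ < ε) ∧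
    (∀ C : ℝ, ∃ K R : ℝ, ∀ z, R ≤ ‖z‖ → AnalyticAt ℂ f z → ‖deriv f z‖ ≤ C → ‖f z‖ ≤ K) := by
  by_cases hb0 : b = 0
  · have ha0 : a ≠ 0 := by rintro rfl; exact hab hb0.symm
    exact main0 hf hb ha ha0 hab.symm htr
  · exact main0 hf ha hb hb0 hab htr

end Pool.Agent.H978R3.SL
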