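import Pool.Agent.H978R3.SL.Base

set_option autoImplicit false

open Set Filter Topology Metric Bornology

namespace Pool.Agent.H978R3.SL

/-- one-sided local improvement -/
theorem pl_local {U F : Set ℂ} {φ : ℂ → ℂ} {ε θ r τ : ℝ} (hε : 0 < ε) (hεθ : ε ≤ θ)
    (hr : 0 < r) (hτ : τ = 1 ∨ τ = -1)
    (hφ : ∀ z ∈ closure U, DifferentiableAt ℂ φ z ∧ ‖φ z‖ ≤ θ)
    (hb : ∀ z ∈ F, z ∈ closure U → ‖φ z‖ ≤ ε)
    (hUb : U ⊆ ball ((r : ℂ) * Complex.I) (r / 2))
    (hUs : ∀ z ∈ U, τ * z.re ≤ 0.02 * r)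
    (hfr : frontier U ⊆ F ∪ sphere ((r : ℂ) * Complex.I) (r / 2)) :
    ∀ z ∈ U, ‖z - (r : ℂ) * Complex.I‖ ≤ 0.1 * r → ‖φ z‖ ≤ ε * Real.exp (0.54 * Real.log (θ / ε)) := by
  have hτ2 : τ * τ = 1 := by rcases hτ with h | h <;> rw [h] <;> norm_num
  set Λ : ℝ := Real.log (θ / ε) with hΛ
  have hθ : 0 < θ := lt_of_lt_of_le hε hεθ
  have hΛ0 : 0 ≤ Λ := Real.log_nonneg (by rw [le_div_iff₀ hε]; linarith)
  set s : ℂ → ℂ := fun z => (z - (r : ℂ) * Complex.I) / r with hs
  set P : ℂ → ℂ := fun z => -4 * s z ^ 2 - 4 * (τ : ℂ) * s z + 0.1 with hP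
  have hPre : ∀ z, (P z).re = 4 * ((s z).im ^ 2 - (s z).re ^ 2) - 4 * τ * (s z).re + 0.1 := by
    intro z
    simp only [hP]
    rw [pow_two]
    simp [Complex.mul_re, Complex.add_re, Complex.sub_re]
    norm_num
    ring
  have hsn : ∀ z, ‖s z‖ = ‖z - (r : ℂ) * Complex.I‖ / r := by
    intro z
    simp [hs, abs_of_pos hr]
  have hsre : ∀ z, (s z).re = z.re / r := by
    intro z
    simp only [hs]
    rw [Complex.div_ofReal_re]
    simp
  have hsq : ∀ z, ‖s z‖ ^ 2 = (s z).re ^ 2 + (s z).im ^ 2 := by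
    intro z
    rw [Complex.sq_norm, Complex.normSq_apply]; ring
  set Ψ : ℂ → ℂ := fun z => φ z * Complex.exp (-(Λ : ℂ) * P z) with hΨ
  have hΨn : ∀ z, ‖Ψ z‖ = ‖φ z‖ * Real.exp (-Λ * (P z).re) := by
    intro z
    rw [hΨ]
    simp only [norm_mul, Complex.norm_exp]
    congr 2
    simp [Complex.mul_re]
  have hcl : closure U ⊆ closedBall ((r : ℂ) * Complex.I) (r / 2) :=
    (closure_mono hUb).trans closure_ball_subset_closedBall
  have hcs : ∀ z ∈ closure U, τ * z.re ≤ 0.02 * r := by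
    intro z hz
    have hcl2 : IsClosed {z : ℂ | τ * z.re ≤ 0.02 * r} :=
      isClosed_le (by fun_prop) continuous_const
    exact closure_minimal (fun w hw => hUs w hw) hcl2 hz
  have hkey : ∀ z ∈ closure U, ‖Ψ z‖ ≤ ε := by
    intro z hz
    apply Complex.norm_le_of_forall_mem_frontier_norm_le (U := U) (isBounded_ball.subset hUb) _ _ hz
    · apply DifferentiableOn.diffContOnCl
      intro w hw
      apply DifferentiableAt.differentiableWithinAt
      apply (hφ w hw).1.mul
      apply DifferentiableAt.cexp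
      simp only [hP, hs]
      fun_prop
    · intro w hw
      have hwc : w ∈ closure U := frontier_subset_closure hw
      rw [hΨn]
      have hX : τ * (s w).re ≤ 0.02 := by
        rw [hsre, ← mul_div_assoc, div_le_iff₀ hr]
        exact hcs w hwc
      have hwn : ‖s w‖ ≤ 1 / 2 := by
        rw [hsn, div_le_iff₀ hr]
        have := hcl hwc
        rw [mem_closedBall, dist_eq_norm] at this
        linarith
      have hsqw := hsq w
      set X : ℝ := τ * (s w).re with hXd
      have hXX : X ^ 2 = (s w).re ^ 2 := by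
        rw [hXd]; linear_combination (s w).re ^ 2 * hτ2
      have hn0 : 0 ≤ ‖s w‖ := norm_nonneg _
      have hXlow : -(1 / 2) ≤ X := by
        have h1 : X ^ 2 ≤ (1 / 2) ^ 2 := by
          nlinarith [sq_nonneg (s w).im]
        exact (abs_le.1 (abs_le_of_sq_le_sq h1 (by norm_num))).1
      have hre := hPre w
      have hre2 : (P w).re = 4 * (s w).im ^ 2 - 4 * X ^ 2 - 4 * X + 0.1 := by
        rw [hre, hXX, hXd]; ring
      rcases hfr hw with h1 | h1
      · have h2 := hb w h1 hwc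
        have h3 : 0 ≤ (P w).re := by
          rw [hre2]
          nlinarith [sq_nonneg (s w).im]
        have h4 : Real.exp (-Λ * (P w).re) ≤ 1 := by
          apply Real.exp_le_one_iff.2
          nlinarith
        calc ‖φ w‖ * Real.exp (-Λ * (P w).re) ≤ ε * 1 := by
              apply mul_le_mul h2 h4 (Real.exp_pos _).le hε.le
          _ = ε := mul_one _
      · have h2 := (hφ w hwc).2
        have hwn' : ‖s w‖ = 1 / 2 := by
          rw [hsn]
          rw [mem_sphere, dist_eq_norm] at h1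
          rw [h1]; field_simp
        rw [hwn'] at hsqw
        have h3 : 1 ≤ (P w).re := by
          rw [hre2]
          nlinarith [sq_nonneg (s w).im]
        have h4 : Real.exp (-Λ * (P w).re) ≤ Real.exp (-Λ) := by
          apply Real.exp_le_exp.2
          nlinarith
        calc ‖φ w‖ * Real.exp (-Λ * (P w).re) ≤ θ * Real.exp (-Λ) := by
              apply mul_le_mul h2 h4 (Real.exp_pos _).le hθ.le
          _ = ε := by
              rw [Real.exp_neg, hΛ, Real.exp_log (by positivity)]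
              field_simp
  intro z hz hzn
  have h1 := hkey z (subset_closure hz)
  rw [hΨn] at h1
  have hre := hPre z
  have hsz : ‖s z‖ ≤ 0.1 := by rw [hsn, div_le_iff₀ hr]; exact hzn
  have hsqz := hsq z
  set X : ℝ := τ * (s z).re with hXd
  have hXX : X ^ 2 = (s z).re ^ 2 := by
    rw [hXd]; linear_combination (s z).re ^ 2 * hτ2
  have hn0 : 0 ≤ ‖s z‖ := norm_nonneg _
  have hXlow : -(0.1) ≤ X := by
    have h1 : X ^ 2 ≤ (0.1) ^ 2 := by
      nlinarith [sq_nonneg (s z).im]
    exact (abs_le.1 (abs_le_of_sq_le_sq h1 (by norm_num))).1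
  have hre2 : (P z).re ≤ 0.54 := by
    rw [hre]
    have : 4 * ((s z).im ^ 2 - (s z).re ^ 2) - 4 * τ * (s z).re + 0.1 =
      4 * (s z).im ^ 2 - 4 * X ^ 2 - 4 * X + 0.1 := by rw [hXX, hXd]; ring
    rw [this]
    have : (s z).im ^ 2 ≤ 0.01 := by nlinarith [sq_nonneg (s z).re]
    nlinarith [sq_nonneg X]
  have h5 : ‖φ z‖ ≤ ε * Real.exp (Λ * (P z).re) := by
    have h6 : ‖φ z‖ = ‖φ z‖ * Real.exp (-Λ * (P z).re) * Real.exp (Λ * (P z).re) := by
      rw [mul_assoc, ← Real.exp_add]
      ring_nf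
      simp
    rw [h6]
    exact mul_le_mul_of_nonneg_right h1 (Real.exp_pos _).le
  refine h5.trans ?_
  apply mul_le_mul_of_nonneg_left _ hε.le
  apply Real.exp_le_exp.2
  nlinarith

end Pool.Agent.H978R3.SL
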