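import Pool.Agent.H978R3.SL.PL

set_option autoImplicit false

open Set Filter Topology Metric Bornology

namespace Pool.Agent.H978R3.SL

/-- PL1: improvement near the positive imaginary axis.
Put `L = {z | ∃ j, |z.im - (c j).im| < 4 ∧ z.re < (c j).re}`, `R' =` the same with `>`; both are open,
`D ∩ {im ≥ im c_0} ⊆ L ∪ R'` and `D ∩ L ∩ R' = ∅` (if `|im c_j - im c_k| < 8` then `|j-k| ≤ 1`,
so `|re c_j - re c_k| ≤ 0.03 < 2`). Apply `pl_local` to `U = D ∩ L ∩ ball (r I) (r/2)` (`τ = 1`)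
and to `U = D ∩ R' ∩ ball (r I) (r/2)` (`τ = -1`), `F = frontier D`, `r = z.im` large. -/
def TaskPL1 : Prop := ∀ (D : Set ℂ) (φ : ℂ → ℂ) (θ ε R0 : ℝ) (c : ℕ → ℂ), IsOpen D → 0 < ε → ε ≤ θ →
  (∀ z ∈ closure D, R0 ≤ ‖z‖ → DifferentiableAt ℂ φ z ∧ ‖φ z‖ ≤ θ) →
  (∀ z ∈ frontier D, R0 ≤ ‖z‖ → ‖φ z‖ ≤ ε) →
  (∀ j, ‖c (j + 1) - c j - 2 * (Real.pi : ℂ) * Complex.I‖ ≤ 0.03) →
  (∀ j, ∀ z ∈ D, |z.im - (c j).im| < 4 → 1 ≤ |z.re - (c j).re|) →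
  ∃ R : ℝ, ∀ z ∈ D, R ≤ ‖z‖ → |z.re| ≤ 0.1 * z.im →
    ‖φ z‖ ≤ ε * Real.exp (0.54 * Real.log (θ / ε))

/-- PL2: Phragmen-Lindelof in the complement of the sector `|re z| ≤ 0.1 im z`.
On `V = D ∩ {‖z‖ > R1} ∩ {|re z| > 0.1 im z}` use `S z = exp (log (I z) / 2)`,
`re S = sqrt ((|z| - im z) / 2) ≥ |z|^(1/2) / 21`, `‖S‖ = |z|^(1/2)`, `A = 21 R1^(1/2)`,
`Ψ = φ * exp (- log(θ/lam) * A / S - η S)`; the maximum principle on `V ∩ ball 0 ρ` gives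
`‖Ψ‖ ≤ lam`; let `η → 0`: `‖φ z‖ ≤ lam * exp (log (θ/lam) * A / |z|^(1/2))`. -/
def TaskPL2 : Prop := ∀ (D : Set ℂ) (φ : ℂ → ℂ) (θ lam R1 : ℝ), IsOpen D → 0 < lam → lam ≤ θ →
  0 < R1 →
  (∀ z ∈ closure D, R1 ≤ ‖z‖ → DifferentiableAt ℂ φ z ∧ ‖φ z‖ ≤ θ) →
  (∀ z ∈ frontier D, R1 ≤ ‖z‖ → ‖φ z‖ ≤ lam) →
  (∀ z ∈ D, R1 ≤ ‖z‖ → |z.re| ≤ 0.1 * z.im → ‖φ z‖ ≤ lam) →
  ∀ μ : ℝ, lam < μ → ∃ R : ℝ, ∀ z ∈ D, R ≤ ‖z‖ → ‖φ z‖ ≤ μ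

/-- B1: path lifting. `MF G`: every point is a point of analyticity or a pole.
On the path `|G| ≥ exp (re s1 - ‖a‖) =: ε`, so `|G'| ≥ m`, and a lift (locally
`localInverse ∘ exp(s1 + t a)`) is Lipschitz with constant `‖a‖ exp (re s1 + ‖a‖) / m`.
Use `IsClosed.Icc_subset_of_forall_exists_gt` for the set of `t ∈ [0,1]` such that a lift exists on
`[0,t]`; closedness: pointwise limit along an ultrafilter (hyperfilter) of the Lipschitz lifts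
`γ_n (min s t_n)`, the limit point is no pole as `G` is bounded along; openness: local inverse. -/
def TaskB1 : Prop := ∀ (G : ℂ → ℂ) (a s1 ζ1 : ℂ), MF G → AnalyticAt ℂ G ζ1 →
  G ζ1 = Complex.exp s1 →
  (∀ ε > 0, ∃ m > 0, ∀ ζ, AnalyticAt ℂ G ζ → ε ≤ ‖G ζ‖ → m ≤ ‖deriv G ζ‖) →
  ∃ γ : ℝ → ℂ, ContinuousOn γ (Icc 0 1) ∧ γ 0 = ζ1 ∧
    ∀ t ∈ Icc (0:ℝ) 1, AnalyticAt ℂ G (γ t) ∧ G (γ t) = Complex.exp (s1 + t * a)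

/-- B2: the entire lift. `p : {ζ // AnalyticAt ℂ G ζ ∧ G ζ ≠ 0} → ℂ`, `p = G`, is a local
homeomorphism with Hausdorff source; use `IsLocalHomeomorph.continuous_lift`
(Mathlib/Topology/Homotopy/Lifting.lean) with `A = ℂ`, `f (t,a) = exp (s1 + t a)`,
`Ψ s = γ_{s - s1} 1`; a continuous solution of `G (Ψ s) = exp s` with `G' ≠ 0` is differentiable. -/
def TaskB2 : Prop := ∀ (G : ℂ → ℂ) (s1 ζ1 : ℂ), AnalyticAt ℂ G ζ1 → G ζ1 = Complex.exp s1 →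
  (∀ ζ, AnalyticAt ℂ G ζ → G ζ ≠ 0 → deriv G ζ ≠ 0) →
  (∀ a : ℂ, ∃ γ : ℝ → ℂ, ContinuousOn γ (Icc 0 1) ∧ γ 0 = ζ1 ∧
    ∀ t ∈ Icc (0:ℝ) 1, AnalyticAt ℂ G (γ t) ∧ G (γ t) = Complex.exp (s1 + t * a)) →
  ∃ Ψ : ℂ → ℂ, Differentiable ℂ Ψ ∧ Ψ s1 = ζ1 ∧
    ∀ s, AnalyticAt ℂ G (Ψ s) ∧ G (Ψ s) = Complex.exp s

/-- B3: a Liouville theorem. Key estimate: if `W` is analytic on `ball c R` with `re W ≥ 0` then
(Schwarz lemma for `(W - W c)/(W + conj (W c))`) for `‖z - c‖ = d < R`: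
`re W c ≤ re W z * (R+d)/(R-d)`, `re W z ≤ re W c * (R+d)/(R-d)` and `‖W' c‖ ≤ 2 * re W c / R`; so
`‖W' c‖ ≤ 4 * re W z / (R - d)`. With `s_k = s0 + 2πik`:
(i) on strips `|re s| ≤ B`: `W = C - v` on discs around `s_k` gives `|re v| ≤ C_B`.
(ii) `re s ≥ re s0`: `W = s + C' - v`, `c = s`, `z = s_k` with `|im s - im s_k| ≤ π`,
`R = re s - re s0 + π + 1`, `R - d ≥ 1`, gives `‖v' s - 1‖ ≤ 4 (re s0 + C')`.
(iii) `re s ≤ re s0`: the same with `W = v - s + C''`. So `v'` is bounded, hence constant. -/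
def TaskB3 : Prop := ∀ (v : ℂ → ℂ) (s0 : ℂ), Differentiable ℂ v →
  (∃ C : ℝ, ∀ s : ℂ, 0 ≤ s.re → (v s).re ≤ s.re + C) →
  (∀ B : ℝ, ∃ C : ℝ, ∀ s : ℂ, |s.re| ≤ B → (v s).re ≤ C) →
  (∀ k : ℤ, (v (s0 + 2 * (Real.pi : ℂ) * Complex.I * k)).re = 0) →
  (∃ A : ℝ, ∀ s : ℂ, s.re ≤ -A → s.re ≤ (v s).re) →
  ∃ κ : ℂ, ∀ s, deriv v s = κ

/-- F6: if `f` is meromorphic and stays away from `β` near infinity then `f` is rational.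
`q = qf f β` (which is `1/(f-β)`, and `0` at the poles of `f`) is analytic (`qf_analyticAt`) and
bounded for `‖z‖ ≥ R`, with finitely many poles in `‖z‖ ≤ R`; so `q * (polynomial)` is entire of
polynomial growth, hence a polynomial; `f = β + 1/q`. (`q` is not identically zero.) -/
def TaskF6 : Prop := ∀ (f : ℂ → ℂ) (β : ℂ), MF f →
  (∃ R : ℝ, ∃ c > 0, ∀ z, R ≤ ‖z‖ → AnalyticAt ℂ f z → c ≤ ‖f z - β‖) →
  ∃ P Q : Polynomial ℂ, Q ≠ 0 ∧ ∀ z, Q.eval z ≠ 0 → f z = P.eval z / Q.eval z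

end Pool.Agent.H978R3.SL
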